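import Pool.Agent.Helper13.JO.Defs

/-!
# Jones' conjecture: basic facts on the preimage tree
-/

set_option autoImplicit false

namespace Pool.Agent.Helper13.JO

open Polynomial

instance isAlgebraic_QQ : Algebra.IsAlgebraic ℚ QQ := by
  have h : (DivisionRing.toRatAlgebra : Algebra ℚ (AlgebraicClosure ℚ)) =
      AlgebraicClosure.instAlgebra ℚ := Subsingleton.elim _ _
  rw [h]
  exact AlgebraicClosure.isAlgebraic ℚ

instance isAlgClosure_QQ : IsAlgClosure ℚ QQ := ⟨inferInstance, inferInstance⟩

instance isGalois_QQ : IsGalois ℚ QQ := IsAlgClosure.isGalois ℚ QQ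

variable {γ c : ℚ}

theorem phi_algebraMap (r : ℚ) : phi γ c (algebraMap ℚ QQ r) = algebraMap ℚ QQ (phiQ γ c r) := by
  simp [phi, phiQ]

theorem phi_iter_algebraMap (n : ℕ) (r : ℚ) :
    (phi γ c)^[n] (algebraMap ℚ QQ r) = algebraMap ℚ QQ ((phiQ γ c)^[n] r) := by
  induction n with
  | zero => rfl
  | succ n ih => rw [Function.iterate_succ', Function.comp_apply, ih, phi_algebraMap,
      Function.iterate_succ', Function.comp_apply]

theorem phi_sigma (σ : QQ ≃ₐ[ℚ] QQ) (x : QQ) : σ (phi γ c x) = phi γ c (σ x) := by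
  simp [phi]

theorem phi_iter_sigma (σ : QQ ≃ₐ[ℚ] QQ) (n : ℕ) (x : QQ) :
    σ ((phi γ c)^[n] x) = (phi γ c)^[n] (σ x) := by
  induction n with
  | zero => rfl
  | succ n ih =>
    rw [Function.iterate_succ', Function.comp_apply, phi_sigma, ih]
    rfl

theorem mem_V (n : ℕ) (x : QQ) : x ∈ V γ c n ↔ (phi γ c)^[n] x = 0 := Iff.rfl

theorem mem_V_zero (x : QQ) : x ∈ V γ c 0 ↔ x = 0 := Iff.rfl

theorem mem_V_succ (n : ℕ) (x : QQ) : x ∈ V γ c (n + 1) ↔ phi γ c x ∈ V γ c n := by
  rw [mem_V, mem_V, Function.iterate_succ_apply]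

theorem mem_V_add (n j : ℕ) (x : QQ) : x ∈ V γ c (n + j) ↔ (phi γ c)^[j] x ∈ V γ c n := by
  rw [mem_V, mem_V, Function.iterate_add_apply]

theorem sigma_mem_V (σ : QQ ≃ₐ[ℚ] QQ) {n : ℕ} {x : QQ} (hx : x ∈ V γ c n) : σ x ∈ V γ c n := by
  rw [mem_V] at hx ⊢
  rw [← phi_iter_sigma, hx, map_zero]

/-- the fibres of `phi` -/
theorem exists_fibre (u : QQ) : ∃ s : QQ, s ^ 2 = u - algebraMap ℚ QQ c ∧
    ∀ w, phi γ c w = u ↔ w = algebraMap ℚ QQ γ + s ∨ w = algebraMap ℚ QQ γ - s := by
  obtain ⟨s, hs⟩ := IsAlgClosed.exists_pow_nat_eq (u - algebraMap ℚ QQ c) (n := 2) (by norm_num)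
  refine ⟨s, hs, fun w => ?_⟩
  unfold phi
  constructor
  · intro h
    have h1 : (w - algebraMap ℚ QQ γ - s) * (w - algebraMap ℚ QQ γ + s) = 0 := by
      linear_combination h - hs
    rcases mul_eq_zero.1 h1 with h2 | h2
    · left; linear_combination h2
    · right; linear_combination h2
  · rintro (rfl | rfl)
    · linear_combination hs
    · linear_combination hs

theorem phi_surjective : Function.Surjective (phi γ c) := by
  intro u
  obtain ⟨s, -, hw⟩ := exists_fibre (γ := γ) (c := c) u
  exact ⟨_, (hw _).2 (Or.inl rfl)⟩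

theorem V_finite (n : ℕ) : (V γ c n).Finite := by
  induction n with
  | zero =>
    have : V γ c 0 = {0} := by ext x; simp [mem_V_zero]
    rw [this]; exact Set.finite_singleton _
  | succ n ih =>
    have : V γ c (n + 1) = ⋃ u ∈ V γ c n, {w | phi γ c w = u} := by
      ext x
      simp [mem_V_succ]
    rw [this]
    refine ih.biUnion fun u _ => ?_
    obtain ⟨s, -, hw⟩ := exists_fibre (γ := γ) (c := c) u
    refine (Set.toFinite {algebraMap ℚ QQ γ + s, algebraMap ℚ QQ γ - s}).subset ?_
    intro w hw'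
    exact (hw w).1 hw'

theorem phi_refl (x : QQ) : phi γ c (2 * algebraMap ℚ QQ γ - x) = phi γ c x := by
  unfold phi; ring

section good
variable (hg : Good γ c)
include hg

theorem ne_c {n : ℕ} {u : QQ} (hu : u ∈ V γ c n) : u ≠ algebraMap ℚ QQ c := by
  rintro rfl
  have h1 : algebraMap ℚ QQ γ ∈ V γ c (n + 1) := by
    rw [mem_V_succ]
    have : phi γ c (algebraMap ℚ QQ γ) = algebraMap ℚ QQ c := by unfold phi; ring
    rw [this]
    exact hu
  exact hg.norat (n + 1) (by omega) γ h1

theorem ne_gamma {n : ℕ} (hn : 1 ≤ n) {w : QQ} (hw : w ∈ V γ c n) : w ≠ algebraMap ℚ QQ γ := by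
  rintro rfl
  exact hg.norat n hn γ hw

theorem bb_ne_zero {n : ℕ} (hn : 1 ≤ n) : bb γ c n ≠ 0 := by
  intro h
  apply hg.norat n hn γ
  rw [mem_V, phi_iter_algebraMap]
  change algebraMap ℚ QQ (bb γ c n) = 0
  rw [h, map_zero]

theorem prod_V (n : ℕ) (x : QQ) :
    ∏ u ∈ (V_finite (γ := γ) (c := c) n).toFinset, (x - u) = (phi γ c)^[n] x := by
  classical
  induction n generalizing x with
  | zero =>
    have : (V_finite (γ := γ) (c := c) 0).toFinset = {0} := by
      ext y; simp [mem_V_zero]
    rw [this, Finset.prod_singleton, sub_zero]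
    rfl
  | succ n ih =>
    rw [Function.iterate_succ_apply, ← ih]
    rw [← Finset.prod_fiberwise_of_maps_to
      (s := (V_finite (γ := γ) (c := c) (n + 1)).toFinset)
      (t := (V_finite (γ := γ) (c := c) n).toFinset) (g := phi γ c)]
    · refine Finset.prod_congr rfl fun u hu => ?_
      rw [Set.Finite.mem_toFinset] at hu
      obtain ⟨s, hs, hw⟩ := exists_fibre (γ := γ) (c := c) u
      have hs0 : s ≠ 0 := by
        rintro rfl
        apply ne_c hg hu
        rw [zero_pow (by norm_num)] at hs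
        exact (sub_eq_zero.1 hs.symm)
      have h1 : (V_finite (γ := γ) (c := c) (n + 1)).toFinset.filter (fun w => phi γ c w = u) =
          {algebraMap ℚ QQ γ + s, algebraMap ℚ QQ γ - s} := by
        ext w
        rw [Finset.mem_filter, Set.Finite.mem_toFinset, mem_V_succ, hw w, Finset.mem_insert,
          Finset.mem_singleton]
        constructor
        · exact fun h => h.2
        · intro h
          refine ⟨?_, h⟩
          rw [(hw w).2 h]
          exact hu
      rw [h1, Finset.prod_pair]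
      · unfold phi
        linear_combination -hs
      · intro h
        apply hs0
        have : (2 : QQ) * s = 0 := by linear_combination h
        simpa using this
    · intro w hw
      rw [Set.Finite.mem_toFinset] at hw ⊢
      exact (mem_V_succ n w).1 hw

end good

/-- `phi γ c` maps algebraic integers to algebraic integers -/
theorem isIntegral_of_phi (hg : Good γ c) {x : QQ} (h : IsIntegral ℤ (phi γ c x)) :
    IsIntegral ℤ x := by
  obtain ⟨a, ha⟩ := hg.hγ
  obtain ⟨b, hb⟩ := hg.hc
  -- x^2 - a x + b = phi x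
  have h1 : x ^ 2 - (a : QQ) * x + (b : QQ) = phi γ c x := by
    have ha' : (2 : QQ) * algebraMap ℚ QQ γ = (a : QQ) := by
      have := congrArg (algebraMap ℚ QQ) ha
      simpa using this
    have hb' : (algebraMap ℚ QQ γ) ^ 2 + algebraMap ℚ QQ c = (b : QQ) := by
      have := congrArg (algebraMap ℚ QQ) hb
      simpa using this
    unfold phi
    linear_combination (-1 : QQ) * hb' + x * ha'
  -- x is integral over the integral closure
  have h2 : IsIntegral (integralClosure ℤ QQ) x := by
    refine ⟨X ^ 2 - C ((a : ℤ) : integralClosure ℤ QQ) * X +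
      C ((b : integralClosure ℤ QQ) - ⟨phi γ c x, h⟩), ?_, ?_⟩
    · monicity!
    · rw [eval₂_add, eval₂_sub, eval₂_pow, eval₂_mul, eval₂_X, eval₂_C, eval₂_C]
      rw [map_sub, map_intCast, map_intCast]
      have h3 : algebraMap (integralClosure ℤ QQ) QQ ⟨phi γ c x, h⟩ = phi γ c x := rfl
      rw [h3, ← h1]
      ring
  exact isIntegral_trans x h2

theorem isIntegral_V (hg : Good γ c) {n : ℕ} {x : QQ} (hx : x ∈ V γ c n) : IsIntegral ℤ x := by
  induction n generalizing x with
  | zero => rw [mem_V_zero] at hx; rw [hx]; exact isIntegral_zero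
  | succ n ih => exact isIntegral_of_phi hg (ih ((mem_V_succ n x).1 hx))

end Pool.Agent.Helper13.JO
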