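import Pool.Agent.Helper13.JO.Near

/-!
# Jones' conjecture: full levels
-/

set_option autoImplicit false

namespace Pool.Agent.Helper13.JO

open Polynomial

variable {q : ℕ} [Fact q.Prime] {γ c : ℚ} (w : QAbs q)

theorem bb_mapped_ne_zero (hg : Good γ c) {n : ℕ} (hn : 1 ≤ n) :
    algebraMap ℚ QQ (bb γ c n) ≠ 0 := by
  rw [Ne, map_eq_zero_iff _ (algebraMap ℚ QQ).injective]
  exact bb_ne_zero hg hn

theorem nu_bb_eq_one_iff (hg : Good γ c) {n : ℕ} (hn : 1 ≤ n) :
    w.ν (algebraMap ℚ QQ (bb γ c n)) = 1 ↔ padicValRat q (bb γ c n) = 0 := by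
  rw [← w.v_eq_zero_iff (bb_mapped_ne_zero hg hn), w.v_ratCast (bb_ne_zero hg hn)]
  norm_cast

/-- if there is at most one near vertex, its value is that of the critical orbit -/
theorem v_of_unique (hg : Good γ c) (hq : q ≠ 2) {j : ℕ}
    (huniq : ∀ u ∈ V γ c j, ∀ u' ∈ V γ c j, w.ν (u - algebraMap ℚ QQ c) < 1 →
      w.ν (u' - algebraMap ℚ QQ c) < 1 → u = u') {u : QQ} (hu : u ∈ V γ c j) :
    w.v (u - algebraMap ℚ QQ c) = 0 ∨
      w.v (u - algebraMap ℚ QQ c) = (padicValRat q (bb γ c (j + 1)) : ℝ) := by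
  rcases (nu_sub_c_le w hg hq hu).lt_or_eq with h | h
  · right
    rw [← w.v_ratCast (bb_ne_zero hg (by omega))]
    apply w.v_of_ν_eq
    rw [nu_prod w hg, Finset.prod_eq_single u]
    · intro x hx hxu
      have hx' := (Set.Finite.mem_toFinset _).1 hx
      rcases (nu_sub_c_le w hg hq hx').lt_or_eq with h2 | h2
      · exact absurd (huniq x hx' u hu h2 h) hxu
      · exact h2
    · intro hcon
      exact absurd ((Set.Finite.mem_toFinset _).2 hu) hcon
  · left
    exact (w.v_eq_zero_iff (sub_ne_zero' hg hu)).2 h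

theorem caseA (hg : Good γ c) (hq : q ≠ 2) {n : ℕ} (hn : 1 ≤ n)
    (hodd : Odd (padicValRat q (bb γ c n)))
    (hmin : ∀ j, 1 ≤ j → j < n → Even (padicValRat q (bb γ c j)))
    (hR : ∀ D, 1 ≤ D → D < n → ¬ Rr γ c w D) : KillA γ c (n - 1) (n - 1) := by
  have huniq : ∀ j, j < n → ∀ u ∈ V γ c j, ∀ u' ∈ V γ c j, w.ν (u - algebraMap ℚ QQ c) < 1 →
      w.ν (u' - algebraMap ℚ QQ c) < 1 → u = u' := by
    intro j hj u hu u' hu' h1 h2
    by_contra hne
    obtain ⟨D, hD1, hD2, hD3⟩ := exists_period w hg hq hu hu' h1 h2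
      (T := j) (((mem_V j u).1 hu).trans ((mem_V j u').1 hu').symm) hne
    exact hR D hD1 (by omega) hD3
  have hPP : ∀ j, j < n → PP w γ c j 0 := by
    intro j
    induction j with
    | zero => intro _; exact PP_zero w
    | succ j ih =>
      intro hj
      apply PP_succ_even w hg hq (ih (by omega))
      intro u hu k hk
      have hev := hmin (j + 1) (by omega) hj
      rw [pow_zero, div_one] at hk
      rcases v_of_unique w hg hq (huniq j (by omega)) hu with h | h
      · rw [h] at hk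
        have : k = 0 := by exact_mod_cast hk.symm
        rw [this]; exact Even.zero
      · rw [h] at hk
        have : padicValRat q (bb γ c (j + 1)) = k := by exact_mod_cast hk
        rw [← this]; exact hev
  obtain ⟨m, rfl⟩ : ∃ m, n = m + 1 := ⟨n - 1, by omega⟩
  rw [Nat.add_sub_cancel]
  apply kill_of_odd w hg (hPP m (by omega)) m
  · have hne : w.ν (algebraMap ℚ QQ (bb γ c (m + 1))) ≠ 1 := by
      intro h
      rw [nu_bb_eq_one_iff w hg hn] at h
      rw [h] at hodd
      exact absurd hodd (by decide)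
    obtain ⟨u, hu, hu1⟩ := exists_near w hg m hne
    refine ⟨u, hu, padicValRat q (bb γ c (m + 1)), hodd, ?_⟩
    rw [pow_zero, div_one]
    rcases v_of_unique w hg hq (huniq m (by omega)) hu with h | h
    · exact absurd ((w.v_eq_zero_iff (sub_ne_zero' hg hu)).1 h) hu1
    · exact h
  · intro u hu u' hu' h1 h2 _
    exact huniq m (by omega) u hu u' hu' (lt_of_le_of_ne (nu_sub_c_le w hg hq hu) h1)
      (lt_of_le_of_ne (nu_sub_c_le w hg hq hu') h2)

end Pool.Agent.Helper13.JO
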