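import Pool.Agent.Helper13.JO.CaseA

/-!
# Jones' conjecture: syndetic killing levels
-/

set_option autoImplicit false

namespace Pool.Agent.Helper13.JO

open Polynomial

variable {q : ℕ} [Fact q.Prime] {γ c : ℚ} (w : QAbs q)

/-- congruence of terms of the critical orbit -/
def Cg (γ c : ℚ) (w : QAbs q) (i j : ℕ) : Prop :=
  w.ν (algebraMap ℚ QQ (bb γ c i) - algebraMap ℚ QQ (bb γ c j)) < 1

theorem Cg.symm {i j : ℕ} (h : Cg γ c w i j) : Cg γ c w j i := by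
  unfold Cg at h ⊢
  exact cong_symm w h

theorem Cg.trans {i j k : ℕ} (h : Cg γ c w i j) (h' : Cg γ c w j k) : Cg γ c w i k := by
  unfold Cg at h h' ⊢
  exact cong_trans w h h'

theorem Cg.refl (i : ℕ) : Cg γ c w i i := by
  unfold Cg; rw [sub_self, map_zero]; exact one_pos

theorem Cg.add (hg : Good γ c) (hq : q ≠ 2) {i j : ℕ} (h : Cg γ c w i j) (t : ℕ) :
    Cg γ c w (i + t) (j + t) := by
  unfold Cg at h ⊢
  have h1 : ∀ i, algebraMap ℚ QQ (bb γ c (i + t)) = (phi γ c)^[t] (algebraMap ℚ QQ (bb γ c i)) := by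
    intro i
    rw [bb_eq, bb_eq, ← Function.iterate_add_apply, add_comm t i]
  rw [h1, h1]
  exact cong_iter w hg hq (nu_bb_le w hg hq i) (nu_bb_le w hg hq j) h t

theorem bb_zero : bb γ c 0 = γ := rfl

theorem Rr_iff (D : ℕ) : Rr γ c w D ↔ Cg γ c w D 0 := by
  unfold Rr Cg
  rw [bb_zero]

theorem cg_mul (hg : Good γ c) (hq : q ≠ 2) {L : ℕ} (hL : Rr γ c w L) (a : ℕ) (r : ℕ) :
    Cg γ c w (L * a + r) r := by
  induction a with
  | zero =>
    have h0 : L * 0 + r = r := by ring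
    rw [h0]
    exact Cg.refl w r
  | succ a ih =>
    have h1 : Cg γ c w (L + (L * a + r)) (0 + (L * a + r)) :=
      Cg.add w hg hq ((Rr_iff w L).1 hL) (L * a + r)
    have h2 : L * (a + 1) + r = L + (L * a + r) := by ring
    rw [h2]
    rw [zero_add] at h1
    exact Cg.trans w h1 ih

theorem dvd_of_Rr (hg : Good γ c) (hq : q ≠ 2) {L : ℕ} (hL1 : 1 ≤ L) (hL : Rr γ c w L)
    (hLmin : ∀ D, 1 ≤ D → D < L → ¬ Rr γ c w D) {D : ℕ} (hD : Rr γ c w D) : L ∣ D := by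
  have h1 : Cg γ c w (L * (D / L) + D % L) (D % L) := cg_mul w hg hq hL (D / L) (D % L)
  rw [Nat.div_add_mod] at h1
  have h2 : Rr γ c w (D % L) :=
    (Rr_iff w _).2 (Cg.trans w (Cg.symm w h1) ((Rr_iff w D).1 hD))
  have h3 : D % L < L := Nat.mod_lt _ (by omega)
  by_contra hcon
  have h4 : D % L ≠ 0 := fun h => hcon (Nat.dvd_of_mod_eq_zero h)
  exact hLmin (D % L) (by omega) h3 h2

/-- the near levels form one class modulo `L` -/
theorem dvd_of_near (hg : Good γ c) (hq : q ≠ 2) {L : ℕ} (hL1 : 1 ≤ L) (hL : Rr γ c w L)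
    (hLmin : ∀ D, 1 ≤ D → D < L → ¬ Rr γ c w D)
    {i j : ℕ} (hij : i ≤ j) (hi : w.ν (algebraMap ℚ QQ (bb γ c i)) < 1)
    (hj : w.ν (algebraMap ℚ QQ (bb γ c j)) < 1) : L ∣ j - i := by
  apply dvd_of_Rr w hg hq hL1 hL hLmin
  rw [Rr_iff]
  have h1 : Cg γ c w j i := by
    unfold Cg
    exact lt_of_le_of_lt (w.sub_le _ _) (max_lt hj hi)
  -- add t with i + t = L * i
  have h2 := Cg.add w hg hq h1 ((L - 1) * i)
  have h3 : i + (L - 1) * i = L * i + 0 := by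
    obtain ⟨L', rfl⟩ : ∃ L', L = L' + 1 := ⟨L - 1, by omega⟩
    rw [Nat.add_sub_cancel]; ring
  have h4 : j + (L - 1) * i = L * i + (j - i) := by
    obtain ⟨L', rfl⟩ : ∃ L', L = L' + 1 := ⟨L - 1, by omega⟩
    obtain ⟨t, rfl⟩ : ∃ t, j = i + t := ⟨j - i, by omega⟩
    rw [Nat.add_sub_cancel, Nat.add_sub_cancel_left]; ring
  rw [h3, h4] at h2
  have h5 := cg_mul w hg hq hL i (j - i)
  have h6 := cg_mul w hg hq hL i 0
  exact Cg.trans w (Cg.trans w (Cg.symm w h5) h2) h6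

theorem nu_pos_of_ne {x : QQ} (hx : x ≠ 0) : 0 < w.ν x := w.ν.pos hx

/-- one step of the chain -/
theorem chain_step (hg : Good γ c) (hq : q ≠ 2) {L : ℕ} (hL1 : 1 ≤ L) (hL : Rr γ c w L)
    {n : ℕ} (hn : 1 ≤ n) {z : QQ} (hz : z ∈ V γ c n) (hz1 : w.ν (z - algebraMap ℚ QQ γ) < 1) :
    ∃ z' ∈ V γ c (n + L), w.ν (z' - algebraMap ℚ QQ γ) < 1 ∧
      w.v (z' - algebraMap ℚ QQ γ) ≤ w.v (z - algebraMap ℚ QQ γ) / 2 := by
  set g := algebraMap ℚ QQ γ with hgdef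
  set G := algebraMap ℚ QQ (bb γ c L) with hG
  have hGg : w.ν (G - g) < 1 := hL
  have hzg0 : z - g ≠ 0 := sub_ne_zero.2 (ne_gamma hg hn hz)
  -- choose the sibling
  obtain ⟨y, hy, hyg, hyG⟩ : ∃ y ∈ V γ c n, w.ν (y - g) < 1 ∧ w.ν (z - g) ≤ w.ν (y - G) := by
    have hmem : 2 * g - z ∈ V γ c n := by
      obtain ⟨n', rfl⟩ : ∃ n', n = n' + 1 := ⟨n - 1, by omega⟩
      rw [mem_V_succ, phi_refl, ← mem_V_succ]
      exact hz
    have h1 : w.ν (2 * (z - g)) = w.ν (z - g) := by rw [map_mul, w.two_eq hq, one_mul]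
    have h2 : 2 * (z - g) = (z - G) - ((2 * g - z) - G) := by ring
    have h3 := w.sub_le (z - G) ((2 * g - z) - G)
    rw [← h2, h1] at h3
    rcases le_max_iff.1 h3 with h | h
    · exact ⟨z, hz, hz1, h⟩
    · refine ⟨2 * g - z, hmem, ?_, h⟩
      have h4 : 2 * g - z - g = -(z - g) := by ring
      rw [h4, w.ν.map_neg]; exact hz1
  have hyG1 : w.ν (y - G) < 1 := cong_trans w hyg (cong_symm w hGg)
  obtain ⟨L', rfl⟩ : ∃ L', L = L' + 1 := ⟨L - 1, by omega⟩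
  have hGc : (phi γ c)^[L'] (algebraMap ℚ QQ c) = G := (bb_succ_eq L').symm
  obtain ⟨x, hx, -, hx1, hx2⟩ := exists_near_preimage w hg hq L' n y (algebraMap ℚ QQ c) hy
    (nu_c_le w hg hq) (by rw [hGc]; exact cong_symm w hyG1)
  rw [hGc] at hx2
  obtain ⟨s, hs, hs2⟩ := exists_rts hx
  refine ⟨g + s, ?_, ?_, ?_⟩
  · exact (mem_rts _ _).1 hs
  · rw [add_sub_cancel_left]
    have h1 : w.ν s ^ 2 < 1 := by
      rw [← map_pow, hs2, ← w.ν.map_neg, neg_sub]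
      exact hx1
    by_contra hcon
    push Not at hcon
    exact absurd h1 (not_lt.2 (one_le_pow₀ hcon))
  · rw [add_sub_cancel_left, v_sq_eq w hs2]
    have h1 : w.v (x - algebraMap ℚ QQ c) ≤ w.v (z - g) := by
      rw [w.v_le_iff (sub_ne_zero' hg hx) hzg0]
      calc w.ν (z - g) ≤ w.ν (y - G) := hyG
        _ = w.ν (G - y) := by rw [← w.ν.map_neg, neg_sub]
        _ ≤ w.ν (algebraMap ℚ QQ c - x) := hx2
        _ = w.ν (x - algebraMap ℚ QQ c) := by rw [← w.ν.map_neg, neg_sub]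
    linarith

theorem chain (hg : Good γ c) (hq : q ≠ 2) {L : ℕ} (hL1 : 1 ≤ L) (hL : Rr γ c w L)
    {k : ℕ} (hk : 1 ≤ k) (hbk : w.ν (algebraMap ℚ QQ (bb γ c k)) < 1) :
    ∃ v0 : ℝ, ∀ i : ℕ, ∃ z ∈ V γ c (k + i * L), w.ν (z - algebraMap ℚ QQ γ) < 1 ∧
      w.v (z - algebraMap ℚ QQ γ) ≤ v0 / 2 ^ i := by
  -- start
  obtain ⟨z0, hz0, -, hz01, -⟩ := exists_near_preimage w hg hq k 0 0 (algebraMap ℚ QQ γ)
    ((mem_V_zero 0).2 rfl) (nu_gamma_le w hg hq) (by rw [← bb_eq, sub_zero]; exact hbk)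
  rw [zero_add] at hz0
  refine ⟨w.v (z0 - algebraMap ℚ QQ γ), fun i => ?_⟩
  induction i with
  | zero =>
    refine ⟨z0, by simpa using hz0, cong_symm w hz01, by simp⟩
  | succ i ih =>
    obtain ⟨z, hz, hz1, hz2⟩ := ih
    obtain ⟨z', hz', h1, h2⟩ := chain_step w hg hq hL1 hL (by omega) hz hz1
    refine ⟨z', ?_, h1, ?_⟩
    · have : k + (i + 1) * L = k + i * L + L := by ring
      rw [this]; exact hz'
    · rw [pow_succ]
      calc w.v (z' - algebraMap ℚ QQ γ) ≤ w.v (z - algebraMap ℚ QQ γ) / 2 := h2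
        _ ≤ (w.v (z0 - algebraMap ℚ QQ γ) / 2 ^ i) / 2 := by linarith
        _ = w.v (z0 - algebraMap ℚ QQ γ) / (2 ^ i * 2) := by rw [div_div]

/-- the exponent of the value group -/
noncomputable def Mf (hg : Good γ c) (hq : q ≠ 2) (m : ℕ) : ℕ := (exists_PP w hg hq m).choose

theorem Mf_spec (hg : Good γ c) (hq : q ≠ 2) (m : ℕ) : PP w γ c m (Mf w hg hq m) :=
  (exists_PP w hg hq m).choose_spec

theorem Mf_step (hg : Good γ c) (hq : q ≠ 2) (m : ℕ) :
    Mf w hg hq (m + 1) = Mf w hg hq m ∨ (Mf w hg hq (m + 1) = Mf w hg hq m + 1 ∧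
      ∃ u ∈ V γ c m, ∃ k : ℤ, Odd k ∧
        w.v (u - algebraMap ℚ QQ c) = k / 2 ^ (Mf w hg hq m)) := by
  rcases PP_step w hg hq (Mf_spec w hg hq m) with h | h
  · left; exact PP_unique w (Mf_spec w hg hq (m + 1)) h
  · right; exact ⟨PP_unique w (Mf_spec w hg hq (m + 1)) h.1, h.2⟩

theorem near_of_inc (hg : Good γ c) (hq : q ≠ 2) {m M : ℕ}
    (h : ∃ u ∈ V γ c m, ∃ k : ℤ, Odd k ∧ w.v (u - algebraMap ℚ QQ c) = k / 2 ^ M) :
    w.ν (algebraMap ℚ QQ (bb γ c (m + 1))) < 1 := by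
  obtain ⟨u, hu, k, hk, h1⟩ := h
  apply near_bb w hg hq hu
  apply lt_of_le_of_ne (nu_sub_c_le w hg hq hu)
  intro h2
  rw [← w.v_eq_zero_iff (sub_ne_zero' hg hu), h1] at h2
  rcases div_eq_zero_iff.1 h2 with h3 | h3
  · have h4 : k = 0 := by exact_mod_cast h3
    rw [h4] at hk
    exact absurd hk (by decide)
  · exact absurd h3 (by positivity)

theorem Mf_lower (hg : Good γ c) (hq : q ≠ 2) {L : ℕ} (hL1 : 1 ≤ L) (hL : Rr γ c w L)
    {k : ℕ} (hk : 1 ≤ k) (hbk : w.ν (algebraMap ℚ QQ (bb γ c k)) < 1) :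
    ∃ C : ℕ, ∀ i : ℕ, i ≤ C + Mf w hg hq (k + i * L) := by
  obtain ⟨v0, hv0⟩ := chain w hg hq hL1 hL hk hbk
  obtain ⟨C, hC⟩ := pow_unbounded_of_one_lt v0 (by norm_num : (1 : ℝ) < 2)
  refine ⟨C, fun i => ?_⟩
  obtain ⟨z, hz, hz1, hz2⟩ := hv0 i
  set M := Mf w hg hq (k + i * L) with hM
  have hz0 : z - algebraMap ℚ QQ γ ≠ 0 := sub_ne_zero.2 (ne_gamma hg (by omega) hz)
  obtain ⟨l, hl⟩ := (Mf_spec w hg hq (k + i * L)).1 (z - algebraMap ℚ QQ γ)
    (sub_mem (V_subset_Kf _ hz) ((Kf γ c _).algebraMap_mem γ)) hz0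
  rw [← hM] at hl
  have hpos : 0 < w.v (z - algebraMap ℚ QQ γ) := (w.v_pos_iff hz0).2 hz1
  have hl1 : (1 : ℝ) ≤ l := by
    rw [hl] at hpos
    have h1 : (0 : ℝ) < l := by
      have h2 : (0 : ℝ) < 2 ^ M := by positivity
      exact (div_pos_iff_of_pos_right h2).1 hpos
    have h2 : 0 < l := by exact_mod_cast h1
    have h3 : 1 ≤ l := h2
    exact_mod_cast h3
  have h1 : (1 : ℝ) / 2 ^ M ≤ v0 / 2 ^ i := by
    calc (1 : ℝ) / 2 ^ M ≤ l / 2 ^ M := by
          apply div_le_div_of_nonneg_right hl1 (by positivity)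
      _ = w.v (z - algebraMap ℚ QQ γ) := hl.symm
      _ ≤ v0 / 2 ^ i := hz2
  have h2 : (2 : ℝ) ^ i < 2 ^ (C + M) := by
    have h3 : (2 : ℝ) ^ i ≤ v0 * 2 ^ M := by
      rw [div_le_div_iff₀ (by positivity) (by positivity), one_mul] at h1
      exact h1
    calc (2 : ℝ) ^ i ≤ v0 * 2 ^ M := h3
      _ < 2 ^ C * 2 ^ M := by
        apply mul_lt_mul_of_pos_right hC (by positivity)
      _ = 2 ^ (C + M) := (pow_add _ _ _).symm
  exact ((pow_lt_pow_iff_right₀ (by norm_num : (1 : ℝ) < 2)).1 h2).le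

theorem caseB (hg : Good γ c) (hq : q ≠ 2) {L : ℕ} (hL1 : 1 ≤ L) (hL : Rr γ c w L)
    (hLmin : ∀ D, 1 ≤ D → D < L → ¬ Rr γ c w D) {n : ℕ} (hn : 1 ≤ n)
    (hbn : w.ν (algebraMap ℚ QQ (bb γ c n)) < 1) (T : ℕ) (hT : T < L) :
    ∃ D m0, ∀ m, m0 ≤ m → ∃ j, m ≤ j ∧ j < m + D ∧ KillA γ c T j := by
  classical
  -- the least near index
  have hex : ∃ k, 1 ≤ k ∧ w.ν (algebraMap ℚ QQ (bb γ c k)) < 1 := ⟨n, hn, hbn⟩
  set k := Nat.find hex with hk
  obtain ⟨hk1, hbk⟩ := Nat.find_spec hex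
  rw [← hk] at hk1 hbk
  have hnear : ∀ j, 1 ≤ j → w.ν (algebraMap ℚ QQ (bb γ c j)) < 1 → k ≤ j ∧ L ∣ j - k := by
    intro j hj1 hj
    have h1 : k ≤ j := Nat.find_min' hex ⟨hj1, hj⟩
    exact ⟨h1, dvd_of_near w hg hq hL1 hL hLmin h1 hbk hj⟩
  obtain ⟨C, hC⟩ := Mf_lower w hg hq hL1 hL hk1 hbk
  -- the function g
  set M := Mf w hg hq with hM
  have hconst : ∀ i t, t < L → M (k + i * L + t) = M (k + i * L) := by
    intro i t ht
    induction t with
    | zero => rfl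
    | succ t ih =>
      rcases Mf_step w hg hq (k + i * L + t) with h | h
      · rw [← hM] at h
        rw [← ih (by omega), ← h]
        rfl
      · exfalso
        obtain ⟨h1, h2⟩ := hnear (k + i * L + t + 1) (by omega) (near_of_inc w hg hq h.2)
        have h3 : k + i * L + t + 1 - k = i * L + (t + 1) := by omega
        rw [h3, Nat.dvd_add_right (Dvd.intro_left i rfl)] at h2
        exact absurd (Nat.le_of_dvd (by omega) h2) (by omega)
  have hstep : ∀ i, M (k + (i + 1) * L) = M (k + i * L) ∨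
      (M (k + (i + 1) * L) = M (k + i * L) + 1 ∧
        ∃ u ∈ V γ c (k + i * L + (L - 1)), ∃ l : ℤ, Odd l ∧
          w.v (u - algebraMap ℚ QQ c) = l / 2 ^ (M (k + i * L + (L - 1)))) := by
    intro i
    have h1 : k + (i + 1) * L = k + i * L + (L - 1) + 1 := by
      have : (i + 1) * L = i * L + L := by ring
      omega
    have h2 := hconst i (L - 1) (by omega)
    rcases Mf_step w hg hq (k + i * L + (L - 1)) with h | h
    · left; rw [h1, ← h2]; exact h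
    · right
      rw [h1]
      refine ⟨?_, h.2⟩
      rw [← h2]
      exact h.1
  -- eventually it increases
  obtain ⟨i0, hi0⟩ : ∃ i0, ∀ i, i0 ≤ i → M (k + (i + 1) * L) = M (k + i * L) + 1 := by
    let d : ℕ → ℕ := fun i => C + M (k + i * L) - i
    have hd : ∀ i, d i + i = C + M (k + i * L) := fun i => Nat.sub_add_cancel (hC i)
    have hdmono : ∀ i, d (i + 1) ≤ d i := by
      intro i
      have h1 := hd i
      have h2 := hd (i + 1)
      rcases hstep i with h | h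
      · rw [h] at h2; omega
      · rw [h.1] at h2; omega
    have hanti : Antitone d := antitone_nat_of_succ_le hdmono
    -- choose the minimum
    obtain ⟨i0, hi0⟩ : ∃ i0, ∀ i, d i0 ≤ d i := by
      obtain ⟨x, ⟨i0, rfl⟩, hx⟩ := WellFounded.has_min (wellFounded_lt (α := ℕ)) (Set.range d)
        ⟨d 0, 0, rfl⟩
      exact ⟨i0, fun i => not_lt.1 (hx _ ⟨i, rfl⟩)⟩
    refine ⟨i0, fun i hi => ?_⟩
    have h1 : d i = d i0 := le_antisymm (hanti hi) (hi0 i)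
    have h2 : d (i + 1) = d i0 := le_antisymm (hanti (by omega)) (hi0 _)
    have h3 := hd i
    have h4 := hd (i + 1)
    omega
  -- killing levels
  have hkill : ∀ i, i0 ≤ i → KillA γ c T (k + i * L + (L - 1)) := by
    intro i hi
    have hinc : ∃ u ∈ V γ c (k + i * L + (L - 1)), ∃ l : ℤ, Odd l ∧
        w.v (u - algebraMap ℚ QQ c) = l / 2 ^ (M (k + i * L + (L - 1))) := by
      rcases hstep i with h | h
      · exact absurd (hi0 i hi) (by omega)
      · exact h.2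
    apply kill_of_odd w hg (Mf_spec w hg hq _) T hinc
    intro u hu u' hu' h1 h2 h3
    by_contra hne
    obtain ⟨D, hD1, hD2, hD3⟩ := exists_period w hg hq hu hu'
      (lt_of_le_of_ne (nu_sub_c_le w hg hq hu) h1) (lt_of_le_of_ne (nu_sub_c_le w hg hq hu') h2)
      h3 hne
    exact hLmin D hD1 (by omega) hD3
  refine ⟨L, k + i0 * L, fun m hm => ?_⟩
  set i := (m - k) / L with hi
  have hmod : (m - k) % L < L := Nat.mod_lt _ (by omega)
  have hdm : L * i + (m - k) % L = m - k := Nat.div_add_mod _ _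
  have hcomm : i * L = L * i := mul_comm _ _
  refine ⟨k + i * L + (L - 1), by omega, by omega, hkill i ?_⟩
  rw [hi, Nat.le_div_iff_mul_le (by omega)]
  omega

end Pool.Agent.Helper13.JO
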