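import Pool.Agent.Helper13.JO.Setup

/-!
# Jones' conjecture: the Galois group of an iterate acts on a tree
-/

set_option autoImplicit false

namespace Pool.Agent.Helper13.JO

open Polynomial

instance factSplits (P : ℚ[X]) : Fact ((P.map (algebraMap ℚ QQ)).Splits) :=
  ⟨IsAlgClosed.splits _⟩

section

variable (f : ℤ[X]) (hm : f.Monic) (hd : f.natDegree = 2) (M : ℕ)

include hm hd in
theorem mem_rootSet_iff (x : QQ) :
    x ∈ (FQ f M).rootSet QQ ↔ x ∈ V (gam f) (cc f) M := by
  rw [mem_V_iff' f hm hd]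
  have h0 : FQ f M ≠ 0 := by
    unfold FQ
    exact ((monic_Fn f hm hd M).map _).ne_zero
  rw [mem_rootSet_of_ne h0]

theorem lift_gal (g : (FQ f M).Gal) : ∃ σ : QQ ≃ₐ[ℚ] QQ,
    ∀ x : (FQ f M).rootSet QQ, ((g • x : (FQ f M).rootSet QQ) : QQ) = σ x := by
  obtain ⟨σ, rfl⟩ := Gal.restrict_surjective (FQ f M) QQ g
  exact ⟨σ, fun x => Gal.restrict_smul σ x⟩

/-- the tree structure on the roots of the `M`-th iterate -/
def tree : TreeAct (FQ f M).Gal ((FQ f M).rootSet QQ) M where
  r j := {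
    r := fun x y => (phi (gam f) (cc f))^[M - j] (x : QQ) = (phi (gam f) (cc f))^[M - j] (y : QQ)
    iseqv := ⟨fun _ => rfl, fun h => h.symm, fun h h' => h.trans h'⟩ }
  anti := by
    intro j x y h
    change (phi (gam f) (cc f))^[M - j] (x : QQ) = (phi (gam f) (cc f))^[M - j] (y : QQ)
    change (phi (gam f) (cc f))^[M - (j + 1)] (x : QQ) =
      (phi (gam f) (cc f))^[M - (j + 1)] (y : QQ) at h
    by_cases hj : j < M
    · have h1 : M - j = (M - (j + 1)) + 1 := by omega
      rw [h1, Function.iterate_succ', Function.comp_apply, Function.comp_apply, h]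
    · have h1 : M - j = M - (j + 1) := by omega
      rw [h1]; exact h
  top := by
    intro x y
    change (phi (gam f) (cc f))^[M - 0] (x : QQ) = (phi (gam f) (cc f))^[M - 0] (y : QQ)
    rw [Nat.sub_zero, ((mem_V M _).1 ((mem_rootSet_iff f hm hd M _).1 x.2)),
      ((mem_V M _).1 ((mem_rootSet_iff f hm hd M _).1 y.2))]
  bot := by
    intro x y h
    change (phi (gam f) (cc f))^[M - M] (x : QQ) = (phi (gam f) (cc f))^[M - M] (y : QQ) at h
    rw [Nat.sub_self] at h
    exact Subtype.ext h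
  inv := by
    intro j g x y h
    change (phi (gam f) (cc f))^[M - j] (x : QQ) = (phi (gam f) (cc f))^[M - j] (y : QQ) at h
    change (phi (gam f) (cc f))^[M - j] ((g • x : (FQ f M).rootSet QQ) : QQ) =
      (phi (gam f) (cc f))^[M - j] ((g • y : (FQ f M).rootSet QQ) : QQ)
    obtain ⟨σ, hσ⟩ := lift_gal f M g
    rw [hσ, hσ, ← phi_iter_sigma, ← phi_iter_sigma, h]
  two := by
    intro j x y z hj h1 h2
    change (phi (gam f) (cc f))^[M - j] (x : QQ) = (phi (gam f) (cc f))^[M - j] (y : QQ) at h1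
    change (phi (gam f) (cc f))^[M - j] (x : QQ) = (phi (gam f) (cc f))^[M - j] (z : QQ) at h2
    change (phi (gam f) (cc f))^[M - (j + 1)] (x : QQ) =
        (phi (gam f) (cc f))^[M - (j + 1)] (y : QQ) ∨
      (phi (gam f) (cc f))^[M - (j + 1)] (x : QQ) = (phi (gam f) (cc f))^[M - (j + 1)] (z : QQ) ∨
      (phi (gam f) (cc f))^[M - (j + 1)] (y : QQ) = (phi (gam f) (cc f))^[M - (j + 1)] (z : QQ)
    have h3 : M - j = (M - (j + 1)) + 1 := by omega
    rw [h3, Function.iterate_succ', Function.comp_apply, Function.comp_apply] at h1 h2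
    set X := (phi (gam f) (cc f))^[M - (j + 1)] (x : QQ)
    set Y := (phi (gam f) (cc f))^[M - (j + 1)] (y : QQ)
    set Z := (phi (gam f) (cc f))^[M - (j + 1)] (z : QQ)
    unfold phi at h1 h2
    have e1 : (X - Y) * (X + Y - 2 * algebraMap ℚ QQ (gam f)) = 0 := by linear_combination h1
    have e2 : (X - Z) * (X + Z - 2 * algebraMap ℚ QQ (gam f)) = 0 := by linear_combination h2
    rcases mul_eq_zero.1 e1 with h4 | h4
    · left; exact sub_eq_zero.1 h4
    · rcases mul_eq_zero.1 e2 with h5 | h5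
      · right; left; exact sub_eq_zero.1 h5
      · right; right; linear_combination h4 - h5

theorem iter_surjective (γ c : ℚ) (k : ℕ) : Function.Surjective (phi γ c)^[k] :=
  Function.Surjective.iterate phi_surjective k

theorem tree_kill (T m : ℕ) (hmM : m < M) (hK : KillA (gam f) (cc f) T m) :
    (tree f hm hd M).Kill T m := by
  obtain ⟨σ, hσ1, ⟨w, hw, hw2⟩, hσ3⟩ := hK
  have hst : ∀ (x : (FQ f M).rootSet QQ),
      ((Gal.restrict (FQ f M) QQ σ • x : (FQ f M).rootSet QQ) : QQ) = σ x :=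
    fun x => Gal.restrict_smul σ x
  have hV : ∀ (x : (FQ f M).rootSet QQ) (j : ℕ), j ≤ M →
      (phi (gam f) (cc f))^[M - j] (x : QQ) ∈ V (gam f) (cc f) j := by
    intro x j hj
    rw [← mem_V_add]
    have : j + (M - j) = M := by omega
    rw [this]
    exact (mem_rootSet_iff f hm hd M _).1 x.2
  refine ⟨Gal.restrict (FQ f M) QQ σ, ?_, ?_, ?_⟩
  · intro x
    change (phi (gam f) (cc f))^[M - m] _ = (phi (gam f) (cc f))^[M - m] _
    rw [hst, ← phi_iter_sigma]
    exact hσ1 _ (hV x m hmM.le)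
  · obtain ⟨x, hx⟩ := iter_surjective (gam f) (cc f) (M - (m + 1)) w
    have hxV : x ∈ V (gam f) (cc f) M := by
      have : M = (m + 1) + (M - (m + 1)) := by omega
      rw [this, mem_V_add, hx]
      exact hw
    refine ⟨⟨x, (mem_rootSet_iff f hm hd M _).2 hxV⟩, ?_⟩
    change ¬ (phi (gam f) (cc f))^[M - (m + 1)] _ = (phi (gam f) (cc f))^[M - (m + 1)] _
    rw [hst, ← phi_iter_sigma]
    change ¬ σ ((phi (gam f) (cc f))^[M - (m + 1)] x) = (phi (gam f) (cc f))^[M - (m + 1)] x
    rw [hx]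
    exact hw2
  · intro x y hx hy hxy
    change ¬ (phi (gam f) (cc f))^[M - (m + 1)] _ = (phi (gam f) (cc f))^[M - (m + 1)] _ at hx
    change ¬ (phi (gam f) (cc f))^[M - (m + 1)] _ = (phi (gam f) (cc f))^[M - (m + 1)] _ at hy
    change (phi (gam f) (cc f))^[M - (m - T)] _ = (phi (gam f) (cc f))^[M - (m - T)] _ at hxy
    change (phi (gam f) (cc f))^[M - m] _ = (phi (gam f) (cc f))^[M - m] _
    rw [hst, ← phi_iter_sigma] at hx hy
    have h1 : M - m = (M - (m + 1)) + 1 := by omega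
    rw [h1, Function.iterate_succ', Function.comp_apply, Function.comp_apply]
    apply hσ3 _ (hV x (m + 1) hmM) _ (hV y (m + 1) hmM) hx hy
    have h2 : M - (m - T) = min T m + 1 + (M - (m + 1)) := by omega
    rw [h2, Function.iterate_add_apply _ (min T m + 1), Function.iterate_add_apply _ (min T m + 1),
      Function.iterate_succ_apply, Function.iterate_succ_apply] at hxy
    exact hxy

include hm hd in
theorem rootSet_nonempty : Nonempty ((FQ f M).rootSet QQ) := by
  obtain ⟨x, hx⟩ := iter_surjective (gam f) (cc f) M 0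
  exact ⟨⟨x, (mem_rootSet_iff f hm hd M _).2 hx⟩⟩

/-- the square of an automorphism which fixes `V n` fixes `V (n+1)` -/
theorem pow_fix (γ c : ℚ) (σ : QQ ≃ₐ[ℚ] QQ) (n : ℕ) :
    ∀ x ∈ V γ c n, (σ ^ (2 ^ n)) x = x := by
  induction n with
  | zero =>
    intro x hx
    rw [(mem_V_zero x).1 hx, map_zero]
  | succ n ih =>
    intro x hx
    set τ := σ ^ (2 ^ n) with hτ
    have h1 : σ ^ (2 ^ (n + 1)) = τ * τ := by rw [hτ, ← pow_add]; congr 1; ring
    rw [h1, AlgEquiv.mul_apply]
    have h2 : phi γ c (τ x) = phi γ c x := by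
      rw [← phi_sigma]
      exact ih _ ((mem_V_succ n x).1 hx)
    have h3 : (τ x - x) * (τ x + x - 2 * algebraMap ℚ QQ γ) = 0 := by
      unfold phi at h2; linear_combination h2
    rcases mul_eq_zero.1 h3 with h4 | h4
    · have h5 : τ x = x := sub_eq_zero.1 h4
      rw [h5, h5]
    · have h5 : τ x = 2 * algebraMap ℚ QQ γ - x := by linear_combination h4
      rw [h5, map_sub, map_mul, h5, AlgEquiv.commutes, map_ofNat]
      ring

include hm hd in
theorem isPGroup : IsPGroup 2 (FQ f M).Gal := by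
  intro g
  refine ⟨M, ?_⟩
  obtain ⟨σ, rfl⟩ := Gal.restrict_surjective (FQ f M) QQ g
  rw [← map_pow]
  apply Gal.galActionHom_injective (FQ f M) QQ
  rw [map_one]
  ext x
  rw [Gal.galActionHom_restrict]
  rw [pow_fix (gam f) (cc f) σ M _ ((mem_rootSet_iff f hm hd M _).1 x.2)]
  rfl

theorem fixed_le : Nat.card {g : (FQ f M).Gal //
      ∃ x ∈ (FQ f M).rootSet (FQ f M).SplittingField, g x = x} ≤
    Nat.card {g : (FQ f M).Gal // ∃ x : (FQ f M).rootSet QQ, g • x = x} := by
  have key : ∀ g : (FQ f M).Gal, (∃ x ∈ (FQ f M).rootSet (FQ f M).SplittingField, g x = x) →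
      ∃ x : (FQ f M).rootSet QQ, g • x = x := by
    rintro g ⟨x, hx, hgx⟩
    refine ⟨Gal.rootsEquivRoots (FQ f M) QQ ⟨x, hx⟩, ?_⟩
    rw [Gal.smul_def, Equiv.symm_apply_apply]
    congr 1
    exact Subtype.ext hgx
  have : Finite {g : (FQ f M).Gal // ∃ x : (FQ f M).rootSet QQ, g • x = x} := inferInstance
  refine Nat.card_le_card_of_injective (fun g => ⟨g.1, key g.1 g.2⟩) ?_
  intro g g' h
  have h' := Subtype.mk.inj h
  exact Subtype.ext h'

end

end Pool.Agent.Helper13.JO
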