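import Mathlib

/-!
# Jones' conjecture (MP_4d96c9_nt): common definitions and the statements of the modules
-/

set_option autoImplicit false

namespace Pool.Agent.Helper13.JO

open Filter Polynomial

/-! ### Part A: densities -/

/-- Number of ideals of norm `n`. -/
noncomputable def idc (K : Type) [Field K] [NumberField K] (n : ℕ) : ℕ :=
  Nat.card {I : Ideal (NumberField.RingOfIntegers K) // Ideal.absNorm I = n}

/-- A1: counting ideals with a power saving. -/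
def IdealCountStmt : Prop :=
  ∀ (K : Type) [Field K] [NumberField K], ∃ ρ δ C : ℝ, 0 < ρ ∧ 0 < δ ∧ δ < 1 ∧ 0 ≤ C ∧
    ∀ x : ℝ, 1 ≤ x →
      |(∑ n ∈ Finset.Icc 1 ⌊x⌋₊, (idc K n : ℝ)) - ρ * x| ≤ C * x ^ (1 - δ)

/-- A2: Selberg's upper bound, abstract version (`*` is Dirichlet convolution; `La` plays the role
of the von Mangoldt function). -/
def SelbergStmt : Prop :=
  ∀ (a La : ArithmeticFunction ℝ), a 1 = 1 → (∀ n, 0 ≤ a n) → (∀ n, 0 ≤ La n) →
    (∀ n, (a * La) n = a n * Real.log n) →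
    ∀ (ρ δ C : ℝ), 0 < ρ → 0 < δ → δ < 1 → 0 ≤ C →
    (∀ x : ℝ, 1 ≤ x → |(∑ n ∈ Finset.Icc 1 ⌊x⌋₊, a n) - ρ * x| ≤ C * x ^ (1 - δ)) →
    ∃ C' : ℝ, ∀ x : ℝ, 2 ≤ x →
      ∑ n ∈ Finset.Icc 1 ⌊x⌋₊, La n ≤ 2 * x + C' * (x / Real.log x)

/-- A3: the von Mangoldt function of a number field. -/
def MangoldtStmt : Prop :=
  ∀ (K : Type) [Field K] [NumberField K], ∃ a La : ArithmeticFunction ℝ,
    (∀ n, n ≠ 0 → a n = idc K n) ∧ a 1 = 1 ∧ (∀ n, 0 ≤ La n) ∧
    (∀ n, (a * La) n = a n * Real.log n) ∧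
    (∀ p : ℕ, p.Prime → (idc K p : ℝ) * Real.log p ≤ La p)

/-- A3': upper bound, with an absolute constant, for the number of prime ideals of degree one. -/
def PrimeBoundStmt : Prop :=
  ∀ (K : Type) [Field K] [NumberField K], ∀ᶠ N : ℕ in atTop,
    ∑ p ∈ (Finset.range (N + 1)).filter Nat.Prime, (idc K p : ℝ) ≤ 3 * (N / Real.log N)

/-- A4: upper bound for the number of primes modulo which a polynomial with Galois group a
`2`-group has a root. -/
def DensStmt : Prop :=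
  ∀ F : ℤ[X], F.Monic → (F.map (Int.castRingHom ℚ)).Separable →
    IsPGroup 2 (F.map (Int.castRingHom ℚ)).Gal →
    ∀ᶠ N : ℕ in atTop,
      (({p : ℕ | p ≤ N ∧ p.Prime ∧ ∃ r : ℤ, (p : ℤ) ∣ F.eval r}.ncard : ℕ) : ℝ) ≤
        7 * ((Nat.card {g : (F.map (Int.castRingHom ℚ)).Gal //
          ∃ x ∈ (F.map (Int.castRingHom ℚ)).rootSet
            (F.map (Int.castRingHom ℚ)).SplittingField, g x = x} : ℝ) /
          (Nat.card (F.map (Int.castRingHom ℚ)).Gal : ℝ)) * (N / Real.log N)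

/-! ### Part B: groups acting on binary trees -/

/-- A group acting on (the leaves of) a rooted tree of height `M` in which every vertex of level
`< M` has at most two children; the vertices of level `j` are the classes of `r j`. -/
structure TreeAct (G Ω : Type) [Group G] [MulAction G Ω] (M : ℕ) where
  r : ℕ → Setoid Ω
  anti : ∀ j x y, (r (j + 1)) x y → (r j) x y
  top : ∀ x y, (r 0) x y
  bot : ∀ x y, (r M) x y → x = y
  inv : ∀ j (g : G) x y, (r j) x y → (r j) (g • x) (g • y)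
  two : ∀ j x y z, j < M → (r j) x y → (r j) x z →
    (r (j + 1)) x y ∨ (r (j + 1)) x z ∨ (r (j + 1)) y z

/-- Some group element fixes all vertices of level `m`, swaps the children of at least one of
them, and the vertices of level `m` whose children it swaps are pairwise at distance `> T` (i.e.
their ancestors of level `m - T` are different). -/
def TreeAct.Kill {G Ω : Type} [Group G] [MulAction G Ω] {M : ℕ} (t : TreeAct G Ω M)
    (T m : ℕ) : Prop :=
  ∃ h : G, (∀ x, (t.r m) (h • x) x) ∧ (∃ x, ¬ (t.r (m + 1)) (h • x) x) ∧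
    ∀ x y, ¬ (t.r (m + 1)) (h • x) x → ¬ (t.r (m + 1)) (h • y) y → (t.r (m - T)) x y → (t.r m) x y

/-- B: the fixed point proportion is small for tall trees. -/
def TreeStmt : Prop :=
  ∀ (K : ℕ → ℕ → Prop),
    ((∀ k, ∃ m, k ≤ m ∧ K m m) ∨ (∀ T, ∃ D m0, ∀ m, m0 ≤ m → ∃ j, m ≤ j ∧ j < m + D ∧ K T j)) →
    ∀ ε : ℝ, 0 < ε → ∃ M0 : ℕ, ∀ M, M0 ≤ M → ∀ (G Ω : Type) [Group G] [Finite G] [Finite Ω]
      [Nonempty Ω] [MulAction G Ω] [MulAction.IsPretransitive G Ω] (t : TreeAct G Ω M),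
      (∀ T m, m < M → K T m → t.Kill T m) →
      (Nat.card {g : G // ∃ x : Ω, g • x = x} : ℝ) ≤ ε * Nat.card G

/-! ### Part C: arithmetic -/

/-- the algebraic closure of the rationals -/
abbrev QQ : Type := AlgebraicClosure ℚ

/-- The polynomial `(x - γ)² + c` on `ℚ`. -/
def phiQ (γ c : ℚ) (x : ℚ) : ℚ := (x - γ) ^ 2 + c

/-- The polynomial `(x - γ)² + c` on the algebraic closure. -/
noncomputable def phi (γ c : ℚ) (x : QQ) : QQ :=
  (x - algebraMap ℚ QQ γ) ^ 2 + algebraMap ℚ QQ c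

/-- The vertices of level `n`. -/
def V (γ c : ℚ) (n : ℕ) : Set QQ := {x | (phi γ c)^[n] x = 0}

/-- The critical orbit. -/
def bb (γ c : ℚ) (n : ℕ) : ℚ := (phiQ γ c)^[n] γ

/-- The hypotheses on the polynomial `(x - γ)² + c`. -/
structure Good (γ c : ℚ) : Prop where
  hγ : ∃ z : ℤ, 2 * γ = z
  hc : ∃ z : ℤ, γ ^ 2 + c = z
  trans : ∀ n, ∀ x ∈ V γ c n, ∀ y ∈ V γ c n, ∃ σ : QQ ≃ₐ[ℚ] QQ, σ x = y
  norat : ∀ n, 1 ≤ n → ∀ r : ℚ, algebraMap ℚ QQ r ∉ V γ c n
  wand : Function.Injective (bb γ c)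

/-- Arithmetic version of `Kill`. -/
def KillA (γ c : ℚ) (T m : ℕ) : Prop :=
  ∃ σ : QQ ≃ₐ[ℚ] QQ, (∀ u ∈ V γ c m, σ u = u) ∧ (∃ w ∈ V γ c (m + 1), σ w ≠ w) ∧
    ∀ w ∈ V γ c (m + 1), ∀ w' ∈ V γ c (m + 1), σ w ≠ w → σ w' ≠ w' →
      (phi γ c)^[min T m] (phi γ c w) = (phi γ c)^[min T m] (phi γ c w') →
      phi γ c w = phi γ c w'

/-- The odd primes which divide some term of the critical orbit to an odd power. -/
def oddP (γ c : ℚ) : Set ℕ :=
  {q | q.Prime ∧ q ≠ 2 ∧ ∃ n, 1 ≤ n ∧ Odd (padicValRat q (bb γ c n))}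

/-- C3: infinitely many primes divide some term of the critical orbit to an odd power. -/
def OddPrimesStmt : Prop := ∀ γ c : ℚ, Good γ c → (oddP γ c).Infinite

/-- C2: from primes to killing levels. -/
def KillStmt : Prop := ∀ γ c : ℚ, Good γ c → (oddP γ c).Infinite →
  ((∀ k, ∃ m, k ≤ m ∧ KillA γ c m m) ∨
    (∀ T, ∃ D m0, ∀ m, m0 ≤ m → ∃ j, m ≤ j ∧ j < m + D ∧ KillA γ c T j))

end Pool.Agent.Helper13.JO
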