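import Pool.Agent.Helper13.JO.Conn
import Pool.Agent.Helper5.JO.Tree

/-!
# Jones' conjecture: final assembly
-/

set_option autoImplicit false

namespace Pool.Agent.Helper13.JO

open Polynomial Filter

/-- small fixed point proportion -/
theorem exists_small (hO : OddPrimesStmt) (f : ℤ[X]) (hm : f.Monic) (hd : f.natDegree = 2)
    (hirr : ∀ n : ℕ, 1 ≤ n → Irreducible (FQ f n)) (hg : Good (gam f) (cc f))
    (ε : ℝ) (hε : 0 < ε) : ∃ M : ℕ, 1 ≤ M ∧
      (Nat.card {g : (FQ f M).Gal //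
        ∃ x ∈ (FQ f M).rootSet (FQ f M).SplittingField, g x = x} : ℝ) /
          (Nat.card (FQ f M).Gal : ℝ) ≤ ε := by
  obtain ⟨M0, hM0⟩ := Pool.Agent.Helper5.JO.tree (KillA (gam f) (cc f))
    (killStmt _ _ hg (hO _ _ hg)) ε hε
  refine ⟨max M0 1, le_max_right _ _, ?_⟩
  set M := max M0 1 with hM
  have hfin : Finite (FQ f M).Gal := inferInstance
  have hfin' : Finite ((FQ f M).rootSet QQ) := inferInstance
  have hne := rootSet_nonempty f hm hd M
  have htr : MulAction.IsPretransitive (FQ f M).Gal ((FQ f M).rootSet QQ) :=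
    Gal.galAction_isPretransitive (FQ f M) QQ (hirr M (le_max_right _ _))
  have h1 := hM0 M (le_max_left _ _) (FQ f M).Gal ((FQ f M).rootSet QQ) (tree f hm hd M)
    (fun T m hmM hK => tree_kill f hm hd M T m hmM hK)
  have h2 : (0 : ℝ) < (Nat.card (FQ f M).Gal : ℝ) := by exact_mod_cast Nat.card_pos
  rw [div_le_iff₀ h2]
  refine le_trans ?_ h1
  exact_mod_cast fixed_le f M

theorem finite_dvd (a : ℤ) (ha : a ≠ 0) : {p : ℕ | (p : ℤ) ∣ a}.Finite := by
  refine (Set.finite_Icc 0 a.natAbs).subset ?_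
  intro p hp
  exact ⟨Nat.zero_le _, Nat.le_of_dvd (Int.natAbs_pos.2 ha) (Int.natCast_dvd.1 hp)⟩

theorem log_two_gt' : (0.69 : ℝ) < Real.log 2 := lt_trans (by norm_num) Real.log_two_gt_d9

/-- comparison with the prime counting function -/
theorem eventually_compare (e C : ℝ) (he : 0 < e) : ∀ᶠ N : ℕ in atTop,
    7 * e * (N / Real.log N) + C ≤ 12 * e * (Nat.primeCounting N : ℝ) := by
  -- N log 2 - log (N+1) ≤ π(N) log N
  have h1 : ∀ᶠ N : ℕ in atTop, C * Real.log N + 12 * e * Real.log (N + 1) ≤ e * N := by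
    have hlog : Tendsto (fun N : ℕ => Real.log N / (N : ℝ)) atTop (nhds 0) := by
      have := (Real.isLittleO_log_id_atTop.tendsto_div_nhds_zero).comp
        (tendsto_natCast_atTop_atTop (R := ℝ))
      exact this
    have hlog1 : Tendsto (fun N : ℕ => Real.log (N + 1) / ((N : ℝ) + 1)) atTop (nhds 0) := by
      have h2 := hlog.comp (tendsto_add_atTop_nat 1)
      refine h2.congr fun N => ?_
      simp [Function.comp]
    have hc1 : ∀ᶠ N : ℕ in atTop, (|C| + 1) * Real.log N ≤ e / 2 * N := by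
      have h3 : ∀ᶠ N : ℕ in atTop, Real.log N / (N : ℝ) < e / 2 / (|C| + 1) :=
        hlog.eventually (gt_mem_nhds (by positivity))
      filter_upwards [h3, eventually_gt_atTop 0] with N hN hN0
      have hN0' : (0 : ℝ) < N := by exact_mod_cast hN0
      rw [div_lt_div_iff₀ hN0' (by positivity)] at hN
      linarith
    have hc2 : ∀ᶠ N : ℕ in atTop, 12 * e * Real.log (N + 1) ≤ e / 2 * N := by
      have h3 : ∀ᶠ N : ℕ in atTop, Real.log (N + 1) / ((N : ℝ) + 1) < 1 / 48 :=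
        hlog1.eventually (gt_mem_nhds (by norm_num))
      filter_upwards [h3, eventually_ge_atTop 1] with N hN hN0
      have hN0' : (1 : ℝ) ≤ N := by exact_mod_cast hN0
      rw [div_lt_div_iff₀ (by positivity) (by norm_num)] at hN
      have h4 : Real.log (N + 1) ≤ N / 24 := by linarith
      calc 12 * e * Real.log (N + 1) ≤ 12 * e * (N / 24) :=
            mul_le_mul_of_nonneg_left h4 (by positivity)
        _ = e / 2 * N := by ring
    filter_upwards [hc1, hc2, eventually_ge_atTop 1] with N h3 h4 hN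
    have h5 : 0 ≤ Real.log (N : ℝ) := Real.log_natCast_nonneg N
    have h6 : C * Real.log N ≤ (|C| + 1) * Real.log N :=
      mul_le_mul_of_nonneg_right (by linarith [le_abs_self C]) h5
    linarith
  filter_upwards [h1, eventually_ge_atTop 2] with N hN hN2
  have hlogpos : 0 < Real.log (N : ℝ) := Real.log_pos (by exact_mod_cast hN2)
  have h2 := Chebyshev.pi_ge N
  rw [div_le_iff₀ hlogpos] at h2
  have h3 := log_two_gt'
  have hNpos : (0 : ℝ) < N := by positivity
  have h4 : 7 * e * (N / Real.log N) + C = (7 * e * N + C * Real.log N) / Real.log N := by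
    field_simp
  rw [h4, div_le_iff₀ hlogpos]
  have h5 : 12 * e * (N * Real.log 2 - Real.log (N + 1)) ≤
      12 * e * ((Nat.primeCounting N : ℝ) * Real.log N) :=
    mul_le_mul_of_nonneg_left h2 (by positivity)
  have h6 : 8 * e * N ≤ 12 * e * (N * Real.log 2) := by
    have h7 : (0.69 : ℝ) * N ≤ N * Real.log 2 := by
      rw [mul_comm]; exact mul_le_mul_of_nonneg_left h3.le hNpos.le
    calc 8 * e * N ≤ 12 * e * (0.69 * N) := by nlinarith [mul_pos he hNpos]
      _ ≤ 12 * e * (N * Real.log 2) := mul_le_mul_of_nonneg_left h7 (by positivity)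
  nlinarith [h5, h6, hN]

theorem main (hDens : DensStmt) (hO : OddPrimesStmt) (f : ℤ[X]) (hm : f.Monic)
    (hd : f.natDegree = 2) (hirr : ∀ n : ℕ, 1 ≤ n → Irreducible (FQ f n))
    (hw : ∀ γ : ℚ, (derivative (f.map (Int.castRingHom ℚ))).eval γ = 0 →
      (Set.range fun n : ℕ => (fun x : ℚ => (f.map (Int.castRingHom ℚ)).eval x)^[n] γ).Infinite)
    (α : ℤ) :
    Tendsto (fun N : ℕ =>
      (({p : ℕ | p ≤ N ∧ p.Prime ∧
          ∃ n : ℕ, 1 ≤ n ∧ (fun x : ℤ => f.eval x)^[n] α ≠ 0 ∧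
            (p : ℤ) ∣ (fun x : ℤ => f.eval x)^[n] α}.ncard : ℝ) /
        (Nat.primeCounting N : ℝ))) atTop (nhds 0) := by
  have hg := good_of f hm hd hirr hw
  rw [Metric.tendsto_nhds]
  intro ε hε
  obtain ⟨M, hM1, hM⟩ := exists_small hO f hm hd hirr hg (ε / 24) (by positivity)
  -- exceptional primes
  have hE : (⋃ n ∈ (Finset.range M).filter (fun n => (fun x : ℤ => f.eval x)^[n] α ≠ 0),
      {p : ℕ | (p : ℤ) ∣ (fun x : ℤ => f.eval x)^[n] α}).Finite := by
    apply Set.Finite.biUnion (Finset.finite_toSet _)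
    intro n hn
    rw [Finset.mem_coe, Finset.mem_filter] at hn
    exact finite_dvd _ hn.2
  set E := (⋃ n ∈ (Finset.range M).filter (fun n => (fun x : ℤ => f.eval x)^[n] α ≠ 0),
      {p : ℕ | (p : ℤ) ∣ (fun x : ℤ => f.eval x)^[n] α}) with hEdef
  have hsep : ((Fn f M).map (Int.castRingHom ℚ)).Separable := (hirr M hM1).separable
  have hD := hDens (Fn f M) (monic_Fn f hm hd M) hsep (isPGroup f hm hd M)
  have hcmp := eventually_compare (ε / 24) (E.ncard : ℝ) (by positivity)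
  filter_upwards [hD, hcmp, eventually_ge_atTop 2] with N h1 h2 hN
  have hsub : {p : ℕ | p ≤ N ∧ p.Prime ∧
      ∃ n : ℕ, 1 ≤ n ∧ (fun x : ℤ => f.eval x)^[n] α ≠ 0 ∧
        (p : ℤ) ∣ (fun x : ℤ => f.eval x)^[n] α} ⊆
      {p : ℕ | p ≤ N ∧ p.Prime ∧ ∃ r : ℤ, (p : ℤ) ∣ (Fn f M).eval r} ∪ E := by
    rintro p ⟨hpN, hp, n, hn1, hne, hdvd⟩
    by_cases hnM : n < M
    · right
      rw [hEdef]
      simp only [Set.mem_iUnion]
      exact ⟨n, Finset.mem_filter.2 ⟨Finset.mem_range.2 hnM, hne⟩, hdvd⟩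
    · left
      refine ⟨hpN, hp, (fun x : ℤ => f.eval x)^[n - M] α, ?_⟩
      rw [eval_Fn, ← Function.iterate_add_apply]
      have : M + (n - M) = n := by omega
      rw [this]
      exact hdvd
  have hfin : ({p : ℕ | p ≤ N ∧ p.Prime ∧ ∃ r : ℤ, (p : ℤ) ∣ (Fn f M).eval r} ∪ E).Finite :=
    ((Set.finite_Iic N).subset fun p hp => hp.1).union hE
  have h3 : ({p : ℕ | p ≤ N ∧ p.Prime ∧
      ∃ n : ℕ, 1 ≤ n ∧ (fun x : ℤ => f.eval x)^[n] α ≠ 0 ∧
        (p : ℤ) ∣ (fun x : ℤ => f.eval x)^[n] α}.ncard : ℝ) ≤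
      ({p : ℕ | p ≤ N ∧ p.Prime ∧ ∃ r : ℤ, (p : ℤ) ∣ (Fn f M).eval r}.ncard : ℝ) +
        (E.ncard : ℝ) := by
    have h4 := Set.ncard_le_ncard hsub hfin
    have h5 := Set.ncard_union_le
      {p : ℕ | p ≤ N ∧ p.Prime ∧ ∃ r : ℤ, (p : ℤ) ∣ (Fn f M).eval r} E
    exact_mod_cast h4.trans h5
  have hπ : 0 < (Nat.primeCounting N : ℝ) := by
    have : 0 < Nat.primeCounting N := by
      have h6 := Nat.monotone_primeCounting hN
      have h7 : Nat.primeCounting 2 = 1 := by decide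
      omega
    exact_mod_cast this
  have hlogpos : 0 < Real.log (N : ℝ) := Real.log_pos (by exact_mod_cast hN)
  rw [Real.dist_eq, sub_zero, abs_of_nonneg (by positivity), div_lt_iff₀ hπ]
  have h8 : ({p : ℕ | p ≤ N ∧ p.Prime ∧ ∃ r : ℤ, (p : ℤ) ∣ (Fn f M).eval r}.ncard : ℝ) ≤
      7 * (ε / 24) * (N / Real.log N) := by
    refine h1.trans ?_
    apply mul_le_mul_of_nonneg_right _ (by positivity)
    apply mul_le_mul_of_nonneg_left hM (by norm_num)
  have h9 : 12 * (ε / 24) * (Nat.primeCounting N : ℝ) < ε * (Nat.primeCounting N : ℝ) := by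
    have : 12 * (ε / 24) = ε / 2 := by ring
    rw [this]
    apply mul_lt_mul_of_pos_right _ hπ
    linarith
  linarith

end Pool.Agent.Helper13.JO
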