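import Pool.Agent.Helper13.JO.Val

/-!
# Jones' conjecture: value groups of the iterated preimage fields
-/

set_option autoImplicit false

namespace Pool.Agent.Helper13.JO

open Polynomial

variable {q : ℕ} [Fact q.Prime]

/-- additive valuation -/
noncomputable def QAbs.v (w : QAbs q) (x : QQ) : ℝ := - Real.logb q (w.ν x)

namespace QAbs

variable (w : QAbs q)

theorem one_lt_q : (1 : ℝ) < q := by exact_mod_cast (Fact.out : q.Prime).one_lt

theorem v_mul {x y : QQ} (hx : x ≠ 0) (hy : y ≠ 0) : w.v (x * y) = w.v x + w.v y := by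
  unfold v
  rw [map_mul, Real.logb_mul (w.ν.pos hx).ne' (w.ν.pos hy).ne']
  ring

theorem v_one : w.v 1 = 0 := by unfold v; rw [map_one, Real.logb_one, neg_zero]

theorem v_inv (x : QQ) : w.v x⁻¹ = - w.v x := by
  unfold v
  rw [map_inv₀, Real.logb_inv]

theorem v_pow (x : QQ) (n : ℕ) : w.v (x ^ n) = n * w.v x := by
  unfold v
  rw [map_pow, Real.logb_pow]
  ring

theorem v_zpow (x : QQ) (n : ℤ) : w.v (x ^ n) = n * w.v x := by
  unfold v
  rw [map_zpow₀, Real.logb, Real.logb, Real.log_zpow]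
  ring

theorem v_of_ν_eq {x y : QQ} (h : w.ν x = w.ν y) : w.v x = w.v y := by unfold v; rw [h]

theorem v_pos_iff {x : QQ} (hx : x ≠ 0) : 0 < w.v x ↔ w.ν x < 1 := by
  unfold v
  rw [neg_pos, Real.logb_neg_iff one_lt_q (w.ν.pos hx)]

theorem v_eq_zero_iff {x : QQ} (hx : x ≠ 0) : w.v x = 0 ↔ w.ν x = 1 := by
  unfold v
  rw [neg_eq_zero, Real.logb_eq_zero]
  have h1 := w.ν.pos hx
  have h2 := one_lt_q (q := q)
  constructor
  · rintro (h | h | h | h | h | h) <;> first | exact h | linarith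
  · intro h
    simp [h]

theorem v_le_iff {x y : QQ} (hx : x ≠ 0) (hy : y ≠ 0) : w.v x ≤ w.v y ↔ w.ν y ≤ w.ν x := by
  unfold v
  rw [neg_le_neg_iff, Real.logb_le_logb one_lt_q (w.ν.pos hy) (w.ν.pos hx)]

theorem v_ratCast {r : ℚ} (hr : r ≠ 0) :
    w.v (algebraMap ℚ QQ r) = (padicValRat q r : ℝ) := by
  unfold v
  rw [w.ext, Padic.eq_padicNorm]
  rw [padicNorm.eq_zpow_of_nonzero hr]
  push_cast
  rw [Real.logb, Real.log_zpow]
  have h1 : Real.log (q : ℝ) ≠ 0 := (Real.log_pos one_lt_q).ne'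
  push_cast
  field_simp

end QAbs

/-- the field generated by the vertices of level `m` -/
noncomputable def Kf (γ c : ℚ) (m : ℕ) : IntermediateField ℚ QQ :=
  IntermediateField.adjoin ℚ (V γ c m)

variable {γ c : ℚ}

theorem V_subset_Kf (m : ℕ) {x : QQ} (hx : x ∈ V γ c m) : x ∈ Kf γ c m :=
  IntermediateField.subset_adjoin ℚ _ hx

theorem phi_mem (K : IntermediateField ℚ QQ) {x : QQ} (hx : x ∈ K) : phi γ c x ∈ K :=
  add_mem (pow_mem (sub_mem hx (K.algebraMap_mem γ)) 2) (K.algebraMap_mem c)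

theorem Kf_mono (m : ℕ) : Kf γ c m ≤ Kf γ c (m + 1) := by
  unfold Kf
  rw [IntermediateField.adjoin_le_iff]
  intro u hu
  obtain ⟨x, rfl⟩ := phi_surjective (γ := γ) (c := c) u
  have hx : x ∈ V γ c (m + 1) := (mem_V_succ m x).2 hu
  exact phi_mem _ (V_subset_Kf (m + 1) hx)

/-- the finite set of square roots -/
noncomputable def rts (γ c : ℚ) (m : ℕ) : Finset QQ :=
  (V_finite (γ := γ) (c := c) (m + 1)).toFinset.map
    ⟨fun x => x - algebraMap ℚ QQ γ, fun _ _ h => sub_left_injective h⟩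

theorem mem_rts (m : ℕ) (s : QQ) :
    s ∈ rts γ c m ↔ algebraMap ℚ QQ γ + s ∈ V γ c (m + 1) := by
  unfold rts
  rw [Finset.mem_map]
  constructor
  · rintro ⟨x, hx, rfl⟩
    rw [Set.Finite.mem_toFinset] at hx
    change algebraMap ℚ QQ γ + (x - algebraMap ℚ QQ γ) ∈ _
    rwa [add_sub_cancel]
  · intro h
    refine ⟨algebraMap ℚ QQ γ + s, ?_, ?_⟩
    · rwa [Set.Finite.mem_toFinset]
    · change algebraMap ℚ QQ γ + s - algebraMap ℚ QQ γ = s
      ring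

theorem phi_add (s : QQ) : phi γ c (algebraMap ℚ QQ γ + s) = s ^ 2 + algebraMap ℚ QQ c := by
  unfold phi; ring

theorem rts_sq {m : ℕ} {s : QQ} (hs : s ∈ rts γ c m) :
    ∃ u ∈ V γ c m, s ^ 2 = u - algebraMap ℚ QQ c := by
  rw [mem_rts] at hs
  refine ⟨_, (mem_V_succ m _).1 hs, ?_⟩
  rw [phi_add]; ring

theorem rts_sq_mem {m : ℕ} {s : QQ} (hs : s ∈ rts γ c m) : s ^ 2 ∈ Kf γ c m := by
  obtain ⟨u, hu, h⟩ := rts_sq hs
  rw [h]
  exact sub_mem (V_subset_Kf m hu) ((Kf γ c m).algebraMap_mem c)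

theorem exists_rts {m : ℕ} {u : QQ} (hu : u ∈ V γ c m) :
    ∃ s ∈ rts γ c m, s ^ 2 = u - algebraMap ℚ QQ c := by
  obtain ⟨s, hs, hw⟩ := exists_fibre (γ := γ) (c := c) u
  refine ⟨s, ?_, hs⟩
  rw [mem_rts, mem_V_succ, (hw _).2 (Or.inl rfl)]
  exact hu

theorem rts_mem_Kf {m : ℕ} {s : QQ} (hs : s ∈ rts γ c m) : s ∈ Kf γ c (m + 1) := by
  rw [mem_rts] at hs
  have h1 := sub_mem (V_subset_Kf (m + 1) hs) ((Kf γ c (m + 1)).algebraMap_mem γ)
  rwa [add_sub_cancel_left] at h1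

theorem Kf_succ_le (m : ℕ) :
    Kf γ c (m + 1) ≤ Kf γ c m ⊔ IntermediateField.adjoin ℚ ((rts γ c m : Finset QQ) : Set QQ) := by
  set F := Kf γ c m ⊔ IntermediateField.adjoin ℚ ((rts γ c m : Finset QQ) : Set QQ) with hF
  unfold Kf
  rw [IntermediateField.adjoin_le_iff]
  intro x hx
  have h1 : x - algebraMap ℚ QQ γ ∈ rts γ c m := by
    rw [mem_rts, add_sub_cancel]; exact hx
  have h2 : x - algebraMap ℚ QQ γ ∈ F :=
    (le_sup_right : _ ≤ F) (IntermediateField.subset_adjoin ℚ _ h1)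
  have h3 := add_mem h2 (F.algebraMap_mem γ)
  rwa [sub_add_cancel] at h3

theorem rts_ne_zero (hg : Good γ c) {m : ℕ} {s : QQ} (hs : s ∈ rts γ c m) : s ≠ 0 := by
  rintro rfl
  rw [mem_rts, add_zero] at hs
  exact hg.norat (m + 1) (by omega) γ hs

theorem sub_ne_zero' (hg : Good γ c) {m : ℕ} {u : QQ} (hu : u ∈ V γ c m) :
    u - algebraMap ℚ QQ c ≠ 0 := sub_ne_zero.2 (ne_c hg hu)

/-- the value group of level `m` is `2^(-M) ℤ` -/
def PP (w : QAbs q) (γ c : ℚ) (m M : ℕ) : Prop :=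
  (∀ x ∈ Kf γ c m, x ≠ 0 → ∃ k : ℤ, w.v x = k / 2 ^ M) ∧
    ∃ x ∈ Kf γ c m, x ≠ 0 ∧ w.v x = 1 / 2 ^ M

variable (w : QAbs q)

theorem PP_zero : PP w γ c 0 0 := by
  constructor
  · intro x hx hx0
    have h1 : Kf γ c 0 = ⊥ := by
      unfold Kf
      rw [eq_bot_iff, IntermediateField.adjoin_le_iff]
      intro y hy
      rw [(mem_V_zero y).1 hy]
      exact zero_mem _
    rw [h1, IntermediateField.mem_bot] at hx
    obtain ⟨r, rfl⟩ := hx
    have hr : r ≠ 0 := by rintro rfl; simp at hx0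
    exact ⟨padicValRat q r, by rw [w.v_ratCast hr]; simp⟩
  · have hq0 : (q : ℚ) ≠ 0 := by exact_mod_cast (Fact.out : q.Prime).ne_zero
    refine ⟨algebraMap ℚ QQ q, (Kf γ c 0).algebraMap_mem _, ?_, ?_⟩
    · rw [Ne, map_eq_zero_iff _ (algebraMap ℚ QQ).injective]
      exact hq0
    · rw [w.v_ratCast hq0]
      have : padicValRat q (q : ℚ) = 1 := by
        rw [padicValRat.of_nat]
        simp
      rw [this]; simp

theorem PP_unique {m M M' : ℕ} (h : PP w γ c m M) (h' : PP w γ c m M') : M = M' := by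
  wlog hlt : M < M' generalizing M M'
  · rcases Nat.lt_or_ge M' M with h1 | h1
    · exact (this h' h h1).symm
    · omega
  exfalso
  obtain ⟨x, hx, hx0, hv⟩ := h'.2
  obtain ⟨k, hk⟩ := h.1 x hx hx0
  rw [hk] at hv
  have h2 : (k : ℝ) * 2 ^ (M' - M) = 1 := by
    have h3 : (2 : ℝ) ^ M' = 2 ^ (M' - M) * 2 ^ M := by
      rw [← pow_add]; congr 1; omega
    rw [h3] at hv
    field_simp at hv
    linarith
  have h4 : k * 2 ^ (M' - M) = 1 := by exact_mod_cast h2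
  have h5 : (2 : ℤ) ∣ 1 := by
    rw [← h4]
    exact Dvd.dvd.mul_left (dvd_pow_self 2 (by omega)) k
  norm_num at h5

theorem v_sq_eq {s : QQ} {x : QQ} (h : s ^ 2 = x) : w.v s = w.v x / 2 := by
  rw [← h, w.v_pow]; push_cast; ring

theorem v_prod {ι : Type*} (s : Finset ι) (f : ι → QQ) (h : ∀ i ∈ s, f i ≠ 0) :
    w.v (∏ i ∈ s, f i) = ∑ i ∈ s, w.v (f i) := by
  classical
  induction s using Finset.induction_on with
  | empty => simp [w.v_one]
  | insert a s ha ih =>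
    rw [Finset.prod_insert ha, Finset.sum_insert ha, w.v_mul (h a (Finset.mem_insert_self _ _))
      (Finset.prod_ne_zero_iff.2 fun i hi => h i (Finset.mem_insert_of_mem hi)),
      ih fun i hi => h i (Finset.mem_insert_of_mem hi)]

/-- values on `K_{m+1}` -/
theorem v_succ (hg : Good γ c) (hq : q ≠ 2) (m : ℕ) {x : QQ} (hx : x ∈ Kf γ c (m + 1))
    (hx0 : x ≠ 0) : ∃ y ∈ Kf γ c m, y ≠ 0 ∧ ∃ B ⊆ rts γ c m, w.v x = w.v y + ∑ s ∈ B, w.v s := by
  obtain ⟨y, hy, hy0, B, hB, h⟩ := w.tower (w.two_eq hq) (Kf γ c m) (rts γ c m)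
    (fun s hs => rts_sq_mem hs) x (Kf_succ_le m hx) hx0
  refine ⟨y, hy, hy0, B, hB, ?_⟩
  rw [← map_prod, ← map_mul] at h
  rw [w.v_of_ν_eq h, w.v_mul hy0, v_prod]
  · exact fun s hs => rts_ne_zero hg (hB hs)
  · exact Finset.prod_ne_zero_iff.2 fun s hs => rts_ne_zero hg (hB hs)

theorem PP_succ_even (hg : Good γ c) (hq : q ≠ 2) {m M : ℕ} (h : PP w γ c m M)
    (hev : ∀ u ∈ V γ c m, ∀ k : ℤ, w.v (u - algebraMap ℚ QQ c) = k / 2 ^ M → Even k) :
    PP w γ c (m + 1) M := by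
  have hs : ∀ s ∈ rts γ c m, ∃ k : ℤ, w.v s = k / 2 ^ M := by
    intro s hs
    obtain ⟨u, hu, h2⟩ := rts_sq hs
    obtain ⟨k, hk⟩ := h.1 _ (sub_mem (V_subset_Kf m hu) ((Kf γ c m).algebraMap_mem c))
      (sub_ne_zero' hg hu)
    obtain ⟨l, hl⟩ := hev u hu k hk
    refine ⟨l, ?_⟩
    rw [v_sq_eq w h2, hk, hl]
    push_cast
    ring
  constructor
  · intro x hx hx0
    obtain ⟨y, hy, hy0, B, hB, h1⟩ := v_succ w hg hq m hx hx0
    obtain ⟨k, hk⟩ := h.1 y hy hy0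
    have h2 : ∀ B ⊆ rts γ c m, ∃ l : ℤ, ∑ s ∈ B, w.v s = l / 2 ^ M := by
      intro B hB
      choose! f hf using hs
      refine ⟨∑ s ∈ B, f s, ?_⟩
      rw [Finset.sum_congr rfl fun s hs' => hf s (hB hs')]
      push_cast
      rw [Finset.sum_div]
    obtain ⟨l, hl⟩ := h2 B hB
    refine ⟨k + l, ?_⟩
    rw [h1, hk, hl]
    push_cast
    ring
  · obtain ⟨x, hx, hx0, hv⟩ := h.2
    exact ⟨x, Kf_mono m hx, hx0, hv⟩

theorem PP_succ_odd (hg : Good γ c) (hq : q ≠ 2) {m M : ℕ} (h : PP w γ c m M)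
    {u : QQ} (hu : u ∈ V γ c m) {k : ℤ} (hk : w.v (u - algebraMap ℚ QQ c) = k / 2 ^ M)
    (hodd : Odd k) : PP w γ c (m + 1) (M + 1) := by
  have hs : ∀ s ∈ rts γ c m, ∃ k : ℤ, w.v s = k / 2 ^ (M + 1) := by
    intro s hs
    obtain ⟨u, hu, h2⟩ := rts_sq hs
    obtain ⟨k, hk⟩ := h.1 _ (sub_mem (V_subset_Kf m hu) ((Kf γ c m).algebraMap_mem c))
      (sub_ne_zero' hg hu)
    refine ⟨k, ?_⟩
    rw [v_sq_eq w h2, hk, pow_succ]
    field_simp
  constructor
  · intro x hx hx0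
    obtain ⟨y, hy, hy0, B, hB, h1⟩ := v_succ w hg hq m hx hx0
    obtain ⟨k, hk⟩ := h.1 y hy hy0
    have h2 : ∀ B ⊆ rts γ c m, ∃ l : ℤ, ∑ s ∈ B, w.v s = l / 2 ^ (M + 1) := by
      intro B hB
      choose! f hf using hs
      refine ⟨∑ s ∈ B, f s, ?_⟩
      rw [Finset.sum_congr rfl fun s hs' => hf s (hB hs')]
      push_cast
      rw [Finset.sum_div]
    obtain ⟨l, hl⟩ := h2 B hB
    refine ⟨2 * k + l, ?_⟩
    rw [h1, hk, hl, pow_succ]
    push_cast
    field_simp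
  · obtain ⟨x, hx, hx0, hv⟩ := h.2
    obtain ⟨s, hs', hs2⟩ := exists_rts hu
    obtain ⟨l, hl⟩ := hodd
    have hs0 := rts_ne_zero hg hs'
    refine ⟨s * x ^ (-l), mul_mem (rts_mem_Kf hs') (zpow_mem (Kf_mono m hx) _),
      mul_ne_zero hs0 (zpow_ne_zero _ hx0), ?_⟩
    rw [w.v_mul hs0 (zpow_ne_zero _ hx0), w.v_zpow, v_sq_eq w hs2, hk, hv, hl, pow_succ]
    push_cast
    field_simp
    ring

/-- `M` increases by at most one, and if it does, there is a vertex with an odd value. -/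
theorem PP_step (hg : Good γ c) (hq : q ≠ 2) {m M : ℕ} (h : PP w γ c m M) :
    PP w γ c (m + 1) M ∨ (PP w γ c (m + 1) (M + 1) ∧
      ∃ u ∈ V γ c m, ∃ k : ℤ, Odd k ∧ w.v (u - algebraMap ℚ QQ c) = k / 2 ^ M) := by
  by_cases hc : ∃ u ∈ V γ c m, ∃ k : ℤ, Odd k ∧ w.v (u - algebraMap ℚ QQ c) = k / 2 ^ M
  · right
    refine ⟨?_, hc⟩
    obtain ⟨u, hu, k, hk, h1⟩ := hc
    exact PP_succ_odd w hg hq h hu h1 hk
  · left
    apply PP_succ_even w hg hq h
    intro u hu k hk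
    by_contra hcon
    exact hc ⟨u, hu, k, Int.not_even_iff_odd.1 hcon, hk⟩

theorem exists_PP (hg : Good γ c) (hq : q ≠ 2) (m : ℕ) : ∃ M, PP w γ c m M := by
  induction m with
  | zero => exact ⟨0, PP_zero w⟩
  | succ m ih =>
    obtain ⟨M, hM⟩ := ih
    rcases PP_step w hg hq hM with h | h
    · exact ⟨M, h⟩
    · exact ⟨M + 1, h.1⟩

/-- a vertex with an odd value gives a killing level -/
theorem kill_of_odd (hg : Good γ c) {m M : ℕ} (h : PP w γ c m M) (T : ℕ)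
    (hodd : ∃ u ∈ V γ c m, ∃ k : ℤ, Odd k ∧ w.v (u - algebraMap ℚ QQ c) = k / 2 ^ M)
    (hsep : ∀ u ∈ V γ c m, ∀ u' ∈ V γ c m, w.ν (u - algebraMap ℚ QQ c) ≠ 1 →
      w.ν (u' - algebraMap ℚ QQ c) ≠ 1 → (phi γ c)^[min T m] u = (phi γ c)^[min T m] u' → u = u') :
    KillA γ c T m := by
  classical
  -- the parity character
  let θ : QQ → ZMod 2 := fun x =>
    if hx : ∃ k : ℤ, w.v x = k / 2 ^ M then ((hx.choose : ℤ) : ZMod 2) else 0
  have hθ1 : ∀ (x : QQ) (k : ℤ), w.v x = k / 2 ^ M → θ x = (k : ZMod 2) := by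
    intro x k hk
    have hx : ∃ k : ℤ, w.v x = k / 2 ^ M := ⟨k, hk⟩
    have h1 : θ x = ((hx.choose : ℤ) : ZMod 2) := by simp only [θ, dif_pos hx]
    obtain ⟨l, hl, hl1⟩ : ∃ l : ℤ, w.v x = l / 2 ^ M ∧ θ x = (l : ZMod 2) :=
      ⟨hx.choose, hx.choose_spec, h1⟩
    rw [hk] at hl
    have h3 : (k : ℝ) = (l : ℝ) := by
      have : (2 : ℝ) ^ M ≠ 0 := by positivity
      field_simp at hl
      exact hl
    have h4 : k = l := by exact_mod_cast h3
    rw [hl1, h4]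
  obtain ⟨σ, hσ, hσs⟩ := kummer (Kf γ c m) (rts γ c m)
    (fun s hs => ⟨rts_ne_zero hg hs, rts_sq_mem hs⟩) θ (by
      intro x hx y hy hx0 hy0
      obtain ⟨k, hk⟩ := h.1 x hx hx0
      obtain ⟨l, hl⟩ := h.1 y hy hy0
      rw [hθ1 x k hk, hθ1 y l hl, hθ1 (x * y) (k + l)]
      · push_cast; rfl
      · rw [w.v_mul hx0 hy0, hk, hl]; push_cast; ring)
  -- action on V (m+1)
  have key : ∀ x ∈ V γ c (m + 1), ∀ k : ℤ,
      w.v (phi γ c x - algebraMap ℚ QQ c) = k / 2 ^ M → (σ x ≠ x ↔ Odd k) := by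
    intro x hx k hk
    set s := x - algebraMap ℚ QQ γ with hs
    have hs' : s ∈ rts γ c m := by rw [mem_rts, hs, add_sub_cancel]; exact hx
    have hs2 : s ^ 2 = phi γ c x - algebraMap ℚ QQ c := by rw [hs]; unfold phi; ring
    have h1 := hσs s hs'
    rw [hs2, hθ1 _ k hk] at h1
    have h2 : σ s = σ x - algebraMap ℚ QQ γ := by rw [hs, map_sub, AlgEquiv.commutes]
    have h3 : σ x ≠ x ↔ σ s ≠ s := by
      rw [h2, hs]
      constructor
      · intro h4 h5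
        exact h4 (sub_left_injective h5)
      · intro h4 h5
        exact h4 (by rw [h5])
    rw [h3, h1]
    have hs0 := rts_ne_zero hg hs'
    rcases Int.even_or_odd k with he | ho
    · have h5 : (k : ZMod 2) = 0 := (ZMod.intCast_eq_zero_iff_even).2 he
      rw [h5, sgn_zero, one_mul]
      simp only [ne_eq, not_true_eq_false, false_iff]
      rwa [Int.not_odd_iff_even]
    · have h5 : (k : ZMod 2) = 1 := (ZMod.intCast_eq_one_iff_odd).2 ho
      rw [h5]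
      have h6 : sgn 1 = -1 := by unfold sgn; rw [if_neg (by decide)]
      rw [h6]
      simp only [ho, iff_true]
      intro h7
      have h8 : (2 : QQ) * s = 0 := by linear_combination -h7
      exact hs0 (by simpa using h8)
  have hval : ∀ x ∈ V γ c (m + 1), ∃ k : ℤ,
      w.v (phi γ c x - algebraMap ℚ QQ c) = k / 2 ^ M := by
    intro x hx
    have hu := (mem_V_succ m x).1 hx
    exact h.1 _ (sub_mem (V_subset_Kf m hu) ((Kf γ c m).algebraMap_mem c)) (sub_ne_zero' hg hu)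
  have hne1 : ∀ x ∈ V γ c (m + 1), σ x ≠ x → w.ν (phi γ c x - algebraMap ℚ QQ c) ≠ 1 := by
    intro x hx hσx h1
    have hu := (mem_V_succ m x).1 hx
    obtain ⟨k, hk⟩ := hval x hx
    have h2 := (key x hx k hk).1 hσx
    have h3 := (w.v_eq_zero_iff (sub_ne_zero' hg hu)).2 h1
    rw [hk] at h3
    have h4 : (k : ℝ) = 0 := by
      have : (2 : ℝ) ^ M ≠ 0 := by positivity
      rcases div_eq_zero_iff.1 h3 with h4 | h4
      · exact h4
      · exact absurd h4 this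
    have h5 : k = 0 := by exact_mod_cast h4
    rw [h5] at h2
    exact absurd h2 (by decide)
  refine ⟨σ, fun u hu => hσ u (V_subset_Kf m hu), ?_, ?_⟩
  · obtain ⟨u, hu, k, hk, h1⟩ := hodd
    obtain ⟨x, rfl⟩ := phi_surjective (γ := γ) (c := c) u
    have hx : x ∈ V γ c (m + 1) := (mem_V_succ m x).2 hu
    exact ⟨x, hx, (key x hx k h1).2 hk⟩
  · intro x hx x' hx' h1 h2 h3
    exact hsep _ ((mem_V_succ m x).1 hx) _ ((mem_V_succ m x').1 hx') (hne1 x hx h1)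
      (hne1 x' hx' h2) h3

end Pool.Agent.Helper13.JO
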