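import Pool.Agent.Helper13.JO.CaseB

/-!
# Jones' conjecture: `KillStmt`
-/

set_option autoImplicit false

namespace Pool.Agent.Helper13.JO

open Polynomial

theorem finite_primes_of_ne_zero {r : ℚ} (hr : r ≠ 0) :
    {q : ℕ | q.Prime ∧ padicValRat q r ≠ 0}.Finite := by
  refine (Finset.finite_toSet (r.num.natAbs.primeFactors ∪ r.den.primeFactors)).subset ?_
  rintro q ⟨hq, h⟩
  rw [Finset.mem_coe, Finset.mem_union, Nat.mem_primeFactors, Nat.mem_primeFactors]
  by_contra hcon
  push Not at hcon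
  apply h
  have h1 : ¬ q ∣ r.num.natAbs := fun hd =>
    absurd (hcon.1 hq hd) (Int.natAbs_ne_zero.2 (Rat.num_ne_zero.2 hr))
  have h2 : ¬ q ∣ r.den := fun hd => absurd (hcon.2 hq hd) r.den_ne_zero
  rw [padicValRat, padicValInt, padicValNat.eq_zero_of_not_dvd h1,
    padicValNat.eq_zero_of_not_dvd h2]
  simp

/-- `γ` has period `D` modulo `q` -/
def RQ (γ c : ℚ) (q D : ℕ) : Prop := bb γ c D = γ ∨ 0 < padicValRat q (bb γ c D - γ)

theorem Rr_iff_RQ {q : ℕ} [Fact q.Prime] {γ c : ℚ} (w : QAbs q) (D : ℕ) :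
    Rr γ c w D ↔ RQ γ c q D := by
  unfold Rr RQ
  rw [← map_sub]
  by_cases h : bb γ c D = γ
  · simp [h]
  · have h1 : bb γ c D - γ ≠ 0 := sub_ne_zero.2 h
    have h2 : algebraMap ℚ QQ (bb γ c D - γ) ≠ 0 := by
      rw [Ne, map_eq_zero_iff _ (algebraMap ℚ QQ).injective]; exact h1
    rw [← w.v_pos_iff h2, w.v_ratCast h1]
    simp only [h, false_or]
    norm_cast

theorem killStmt : KillStmt := by
  classical
  intro γ c hg hinf
  -- the least index with odd valuation
  have hex : ∀ q ∈ oddP γ c, ∃ n, 1 ≤ n ∧ Odd (padicValRat q (bb γ c n)) := fun q hq => hq.2.2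
  let P : ℕ → Prop := fun q => ∃ n, 1 ≤ n ∧ Odd (padicValRat q (bb γ c n)) ∧
    (∀ j, 1 ≤ j → j < n → Even (padicValRat q (bb γ c j))) ∧
    ∀ D, 1 ≤ D → D < n → ¬ RQ γ c q D
  by_cases hA : (oddP γ c ∩ {q | P q}).Infinite
  · left
    intro k
    have hfin : (⋃ n ∈ Finset.Icc 1 k, {q : ℕ | q.Prime ∧ padicValRat q (bb γ c n) ≠ 0}).Finite := by
      apply Set.Finite.biUnion (Finset.finite_toSet _)
      intro n hn
      rw [Finset.mem_coe, Finset.mem_Icc] at hn
      exact finite_primes_of_ne_zero (bb_ne_zero hg hn.1)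
    obtain ⟨q, ⟨hqS, n, hn1, hodd, hmin, hR⟩, hqn⟩ := (hA.sdiff hfin).nonempty
    have hqp : q.Prime := hqS.1
    have : Fact q.Prime := ⟨hqp⟩
    obtain ⟨w⟩ := exists_qabs q
    have hkn : k < n := by
      by_contra hcon
      apply hqn
      simp only [Set.mem_iUnion]
      refine ⟨n, Finset.mem_Icc.2 ⟨hn1, by omega⟩, hqp, ?_⟩
      intro h0
      rw [h0] at hodd
      exact absurd hodd (by decide)
    refine ⟨n - 1, by omega, ?_⟩
    exact caseA w hg hqS.2.1 hn1 hodd hmin fun D h1 h2 h3 => hR D h1 h2 ((Rr_iff_RQ w D).1 h3)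
  · right
    intro T
    have hB : (oddP γ c \ {q | P q}).Infinite := by
      rw [Set.not_infinite] at hA
      intro hfin
      apply hinf
      rw [← Set.inter_union_sdiff (oddP γ c) {q | P q}]
      exact hA.union hfin
    have hfin : (⋃ D ∈ Finset.Icc 1 T,
        {q : ℕ | q.Prime ∧ padicValRat q (bb γ c D - γ) ≠ 0}).Finite := by
      apply Set.Finite.biUnion (Finset.finite_toSet _)
      intro D hD
      rw [Finset.mem_coe, Finset.mem_Icc] at hD
      apply finite_primes_of_ne_zero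
      rw [sub_ne_zero]
      intro h
      have h1 : bb γ c D = bb γ c 0 := h
      have := hg.wand h1
      omega
    obtain ⟨q, ⟨hqS, hqP⟩, hqD⟩ := (hB.sdiff hfin).nonempty
    have hqp : q.Prime := hqS.1
    have : Fact q.Prime := ⟨hqp⟩
    obtain ⟨w⟩ := exists_qabs q
    -- the least odd index
    obtain ⟨hn1, hodd⟩ := Nat.find_spec (hex q hqS)
    set n := Nat.find (hex q hqS) with hn
    have hmin : ∀ j, 1 ≤ j → j < n → Even (padicValRat q (bb γ c j)) := by
      intro j hj1 hj2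
      by_contra hcon
      exact Nat.find_min (hex q hqS) hj2 ⟨hj1, Int.not_even_iff_odd.1 hcon⟩
    have hexR : ∃ D, 1 ≤ D ∧ Rr γ c w D := by
      by_contra hcon
      push Not at hcon
      exact hqP ⟨n, hn1, hodd, hmin, fun D h1 _ h3 => hcon D h1 ((Rr_iff_RQ w D).2 h3)⟩
    obtain ⟨hL1, hL⟩ := Nat.find_spec hexR
    set L := Nat.find hexR with hLdef
    have hLmin : ∀ D, 1 ≤ D → D < L → ¬ Rr γ c w D := fun D h1 h2 h3 =>
      Nat.find_min hexR h2 ⟨h1, h3⟩
    have hTL : T < L := by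
      by_contra hcon
      apply hqD
      simp only [Set.mem_iUnion]
      refine ⟨L, Finset.mem_Icc.2 ⟨hL1, by omega⟩, hqp, ?_⟩
      rcases (Rr_iff_RQ w L).1 hL with h | h
      · have h1 : bb γ c L = bb γ c 0 := h
        have := hg.wand h1
        omega
      · exact h.ne'
    have hbn : w.ν (algebraMap ℚ QQ (bb γ c n)) < 1 := by
      apply lt_of_le_of_ne (nu_bb_le w hg hqS.2.1 n)
      intro h
      rw [nu_bb_eq_one_iff w hg hn1] at h
      rw [h] at hodd
      exact absurd hodd (by decide)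
    exact caseB w hg hqS.2.1 hL1 hL hLmin hn1 hbn T hTL

end Pool.Agent.Helper13.JO
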