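import Pool.Agent.Helper13.JO.Basic

/-!
# Jones' conjecture: Kummer theory for square roots
-/

set_option autoImplicit false

namespace Pool.Agent.Helper13.JO

/-- the sign of an element of `ZMod 2` -/
noncomputable def sgn (z : ZMod 2) : QQ := if z = 0 then 1 else -1

theorem sgn_zero : sgn 0 = 1 := rfl

theorem sgn_add (a b : ZMod 2) : sgn (a + b) = sgn a * sgn b := by
  have h2 : ∀ z : ZMod 2, z = 0 ∨ z = 1 := by decide
  have h10 : (1 : ZMod 2) ≠ 0 := by decide
  have h11 : (1 : ZMod 2) + 1 = 0 := by decide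
  unfold sgn
  rcases h2 a with ha | ha <;> rcases h2 b with hb | hb <;> subst ha <;> subst hb
  · simp
  · simp
  · simp
  · rw [if_pos h11, if_neg h10]; norm_num

theorem sgn_ne_zero (a : ZMod 2) : sgn a ≠ 0 := by
  unfold sgn; split_ifs <;> norm_num

theorem sgn_sum {ι : Type*} (s : Finset ι) (f : ι → ZMod 2) :
    sgn (∑ i ∈ s, f i) = ∏ i ∈ s, sgn (f i) := by
  classical
  induction s using Finset.induction_on with
  | empty => simp [sgn_zero]
  | insert a s ha ih => rw [Finset.sum_insert ha, Finset.prod_insert ha, sgn_add, ih]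

theorem sgn_sq (a : ZMod 2) : sgn a * sgn a = 1 := by
  unfold sgn; split_ifs <;> norm_num

theorem sigma_sgn (σ : QQ ≃ₐ[ℚ] QQ) (a : ZMod 2) : σ (sgn a) = sgn a := by
  unfold sgn; split_ifs <;> simp

theorem sgn_injective : Function.Injective sgn := by
  intro a b h
  unfold sgn at h
  have h2 : ∀ z : ZMod 2, z = 0 ∨ z = 1 := by decide
  rcases h2 a with ha | ha <;> rcases h2 b with hb | hb <;> subst ha <;> subst hb
  · rfl
  · simp at h; norm_num at h
  · simp at h; norm_num at h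
  · rfl

/-- Kummer theory: every character of `K` with values in `ℤ/2` is realised on square roots. -/
theorem kummer (K : IntermediateField ℚ QQ) (A : Finset QQ) (hA : ∀ s ∈ A, s ≠ 0 ∧ s ^ 2 ∈ K)
    (θ : QQ → ZMod 2)
    (hθ : ∀ x ∈ K, ∀ y ∈ K, x ≠ 0 → y ≠ 0 → θ (x * y) = θ x + θ y) :
    ∃ σ : QQ ≃ₐ[ℚ] QQ, (∀ x ∈ K, σ x = x) ∧ ∀ s ∈ A, σ s = sgn (θ (s ^ 2)) * s := by
  classical
  -- the subspace of sign patterns
  let W : Submodule (ZMod 2) (A → ZMod 2) := AddSubgroup.toZModSubmodule 2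
    { carrier := {w | ∃ σ : QQ ≃ₐ[ℚ] QQ, (∀ x ∈ K, σ x = x) ∧ ∀ s : A, σ s = sgn (w s) * s}
      zero_mem' := ⟨AlgEquiv.refl, fun _ _ => rfl, fun s => by
        rw [Pi.zero_apply, sgn_zero, one_mul]; rfl⟩
      add_mem' := by
        rintro a b ⟨σ, h1, h2⟩ ⟨τ, h3, h4⟩
        refine ⟨τ.trans σ, ?_, ?_⟩
        · intro x hx
          rw [AlgEquiv.trans_apply, h3 x hx, h1 x hx]
        · intro s
          rw [AlgEquiv.trans_apply, h4, map_mul, sigma_sgn, h2, Pi.add_apply, sgn_add]
          ring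
      neg_mem' := by
        rintro a ⟨σ, h1, h2⟩
        refine ⟨σ, h1, ?_⟩
        intro s
        rw [h2, Pi.neg_apply]
        have : -(a s) = a s := by
          have : ∀ z : ZMod 2, -z = z := by decide
          exact this _
        rw [this] }
  let t : A → ZMod 2 := fun s => θ ((s : QQ) ^ 2)
  by_cases ht : t ∈ W
  · obtain ⟨σ, h1, h2⟩ := ht
    exact ⟨σ, h1, fun s hs => h2 ⟨s, hs⟩⟩
  exfalso
  obtain ⟨f, hf, hfW⟩ := Submodule.exists_le_ker_of_notMem ht
  -- the product of the square roots with coefficient one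
  let B : Finset A := Finset.univ.filter fun s => f (Pi.single s 1) = 1
  have hfsum : ∀ w : A → ZMod 2, f w = ∑ s ∈ B, w s := by
    intro w
    have h1 : w = ∑ s, w s • (Pi.single s (1 : ZMod 2) : A → ZMod 2) := by
      funext j
      simp [Finset.sum_apply, Pi.single_apply]
    conv_lhs => rw [h1]
    rw [map_sum, Finset.sum_filter]
    refine Finset.sum_congr rfl fun s _ => ?_
    rw [map_smul, smul_eq_mul]
    have h2 : ∀ z : ZMod 2, z = 0 ∨ z = 1 := by decide
    rcases h2 (f (Pi.single s 1)) with h3 | h3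
    · rw [h3, mul_zero, if_neg (by decide)]
    · rw [h3, mul_one, if_pos rfl]
  set P : QQ := ∏ s ∈ B, (s : QQ) with hP
  have hfix : ∀ σ : QQ ≃ₐ[ℚ] QQ, (∀ x ∈ K, σ x = x) → σ P = P := by
    intro σ hσ
    -- sign pattern of σ
    have hs : ∀ s : A, σ (s : QQ) = s ∨ σ (s : QQ) = -s := by
      intro s
      have h1 : (σ (s : QQ)) ^ 2 = (s : QQ) ^ 2 := by
        rw [← map_pow]; exact hσ _ (hA s s.2).2
      exact sq_eq_sq_iff_eq_or_eq_neg.1 h1
    let w : A → ZMod 2 := fun s => if σ (s : QQ) = s then 0 else 1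
    have hw : ∀ s : A, σ (s : QQ) = sgn (w s) * s := by
      intro s
      by_cases h : σ (s : QQ) = s
      · simp only [w, if_pos h, sgn_zero, one_mul]; exact h
      · simp only [w, if_neg h]
        rw [(hs s).resolve_left h]
        have : sgn 1 = -1 := by unfold sgn; rw [if_neg (by decide)]
        rw [this]; ring
    have hwW : w ∈ W := ⟨σ, hσ, hw⟩
    have h0 : f w = 0 := hfW hwW
    rw [hP, map_prod]
    have h1 : ∏ s ∈ B, σ (s : QQ) = ∏ s ∈ B, (sgn (w s) * (s : QQ)) :=
      Finset.prod_congr rfl fun s _ => hw s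
    rw [h1, Finset.prod_mul_distrib, ← sgn_sum, ← hfsum, h0, sgn_zero, one_mul]
  have hPK : P ∈ K := by
    have h1 : IntermediateField.fixedField K.fixingSubgroup = K :=
      InfiniteGalois.fixedField_fixingSubgroup K
    rw [← h1, IntermediateField.mem_fixedField_iff]
    intro σ hσ
    exact hfix σ ((IntermediateField.mem_fixingSubgroup_iff K σ).1 hσ)
  have hP0 : P ≠ 0 := Finset.prod_ne_zero_iff.2 fun s _ => (hA s s.2).1
  -- θ of a product
  have hone : θ 1 = 0 := by
    have h1 := hθ 1 K.one_mem 1 K.one_mem one_ne_zero one_ne_zero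
    rw [mul_one] at h1
    have : ∀ z : ZMod 2, z = z + z → z = 0 := by decide
    exact this _ h1
  have hprod : ∀ S : Finset A, θ (∏ s ∈ S, ((s : QQ) ^ 2)) = ∑ s ∈ S, θ ((s : QQ) ^ 2) ∧
      (∏ s ∈ S, ((s : QQ) ^ 2)) ∈ K := by
    intro S
    induction S using Finset.induction_on with
    | empty => simp [hone, K.one_mem]
    | insert a S ha ih =>
      rw [Finset.prod_insert ha, Finset.sum_insert ha]
      refine ⟨?_, mul_mem (hA a a.2).2 ih.2⟩
      rw [hθ _ (hA a a.2).2 _ ih.2 (pow_ne_zero _ (hA a a.2).1)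
        (Finset.prod_ne_zero_iff.2 fun s _ => pow_ne_zero _ (hA s s.2).1), ih.1]
  have h1 : θ (P ^ 2) = f t := by
    rw [hP, ← Finset.prod_pow, (hprod B).1, hfsum]
  have h2 : θ (P ^ 2) = 0 := by
    rw [pow_two, hθ P hPK P hPK hP0 hP0]
    have : ∀ z : ZMod 2, z + z = 0 := by decide
    exact this _
  exact hf (h1.symm.trans h2)

end Pool.Agent.Helper13.JO
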