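import Pool.Agent.Helper13.JO.Gam

/-!
# Jones' conjecture: vertices near the critical value
-/

set_option autoImplicit false

namespace Pool.Agent.Helper13.JO

open Polynomial

variable {q : ℕ} [Fact q.Prime] {γ c : ℚ} (w : QAbs q)

theorem nu_intCast_le (z : ℤ) : w.ν (algebraMap ℚ QQ (z : ℚ)) ≤ 1 := by
  have : algebraMap ℚ QQ (z : ℚ) = (z : QQ) := by simp
  rw [this]
  exact w.int_le z

theorem nu_gamma_le (hg : Good γ c) (hq : q ≠ 2) : w.ν (algebraMap ℚ QQ γ) ≤ 1 := by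
  obtain ⟨z, hz⟩ := hg.hγ
  have h1 := nu_intCast_le w z
  rw [← hz, map_mul, map_mul] at h1
  have h2 : algebraMap ℚ QQ 2 = 2 := by simp
  rwa [h2, w.two_eq hq, one_mul] at h1

theorem nu_c_le (hg : Good γ c) (hq : q ≠ 2) : w.ν (algebraMap ℚ QQ c) ≤ 1 := by
  obtain ⟨z, hz⟩ := hg.hc
  have h1 : algebraMap ℚ QQ c = algebraMap ℚ QQ (z : ℚ) - (algebraMap ℚ QQ γ) ^ 2 := by
    rw [← hz]; simp
  rw [h1]
  refine (w.sub_le _ _).trans (max_le (nu_intCast_le w z) ?_)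
  rw [map_pow]
  exact pow_le_one₀ (w.ν.nonneg _) (nu_gamma_le w hg hq)

theorem nu_phi_le (hg : Good γ c) (hq : q ≠ 2) {x : QQ} (hx : w.ν x ≤ 1) :
    w.ν (phi γ c x) ≤ 1 := by
  unfold phi
  refine (w.na _ _).trans (max_le ?_ (nu_c_le w hg hq))
  rw [map_pow]
  exact pow_le_one₀ (w.ν.nonneg _) ((w.sub_le _ _).trans (max_le hx (nu_gamma_le w hg hq)))

theorem nu_iter_le (hg : Good γ c) (hq : q ≠ 2) {x : QQ} (hx : w.ν x ≤ 1) (n : ℕ) :
    w.ν ((phi γ c)^[n] x) ≤ 1 := by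
  induction n with
  | zero => exact hx
  | succ n ih =>
    rw [Function.iterate_succ', Function.comp_apply]
    exact nu_phi_le w hg hq ih

theorem bb_eq (n : ℕ) :
    algebraMap ℚ QQ (bb γ c n) = (phi γ c)^[n] (algebraMap ℚ QQ γ) :=
  (phi_iter_algebraMap n γ).symm

theorem bb_succ_eq (n : ℕ) :
    algebraMap ℚ QQ (bb γ c (n + 1)) = (phi γ c)^[n] (algebraMap ℚ QQ c) := by
  rw [bb_eq, Function.iterate_succ_apply]
  have : phi γ c (algebraMap ℚ QQ γ) = algebraMap ℚ QQ c := by unfold phi; ring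
  rw [this]

theorem nu_bb_le (hg : Good γ c) (hq : q ≠ 2) (n : ℕ) :
    w.ν (algebraMap ℚ QQ (bb γ c n)) ≤ 1 := by
  rw [bb_eq]
  exact nu_iter_le w hg hq (nu_gamma_le w hg hq) n

theorem nu_V_le (hg : Good γ c) {m : ℕ} {u : QQ} (hu : u ∈ V γ c m) : w.ν u ≤ 1 :=
  w.integral_le (isIntegral_V hg hu)

theorem nu_sub_c_le (hg : Good γ c) (hq : q ≠ 2) {m : ℕ} {u : QQ} (hu : u ∈ V γ c m) :
    w.ν (u - algebraMap ℚ QQ c) ≤ 1 :=
  (w.sub_le _ _).trans (max_le (nu_V_le w hg hu) (nu_c_le w hg hq))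

theorem cong_phi (hg : Good γ c) (hq : q ≠ 2) {x y : QQ} (hx : w.ν x ≤ 1) (hy : w.ν y ≤ 1)
    (h : w.ν (x - y) < 1) : w.ν (phi γ c x - phi γ c y) < 1 := by
  have h1 : phi γ c x - phi γ c y =
      (x - y) * ((x - algebraMap ℚ QQ γ) + (y - algebraMap ℚ QQ γ)) := by
    unfold phi; ring
  rw [h1, map_mul]
  have h2 : w.ν ((x - algebraMap ℚ QQ γ) + (y - algebraMap ℚ QQ γ)) ≤ 1 := by
    refine (w.na _ _).trans (max_le ?_ ?_)
    · exact (w.sub_le _ _).trans (max_le hx (nu_gamma_le w hg hq))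
    · exact (w.sub_le _ _).trans (max_le hy (nu_gamma_le w hg hq))
  calc w.ν (x - y) * w.ν ((x - algebraMap ℚ QQ γ) + (y - algebraMap ℚ QQ γ))
      ≤ w.ν (x - y) * 1 := mul_le_mul_of_nonneg_left h2 (w.ν.nonneg _)
    _ < 1 := by rwa [mul_one]

theorem cong_iter (hg : Good γ c) (hq : q ≠ 2) {x y : QQ} (hx : w.ν x ≤ 1) (hy : w.ν y ≤ 1)
    (h : w.ν (x - y) < 1) (n : ℕ) : w.ν ((phi γ c)^[n] x - (phi γ c)^[n] y) < 1 := by
  induction n with
  | zero => exact h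
  | succ n ih =>
    rw [Function.iterate_succ', Function.comp_apply, Function.comp_apply]
    exact cong_phi w hg hq (nu_iter_le w hg hq hx n) (nu_iter_le w hg hq hy n) ih

theorem cong_trans {x y z : QQ} (h1 : w.ν (x - y) < 1) (h2 : w.ν (y - z) < 1) :
    w.ν (x - z) < 1 := by
  have h3 : x - z = (x - y) + (y - z) := by ring
  rw [h3]
  exact lt_of_le_of_lt (w.na _ _) (max_lt h1 h2)

theorem cong_symm {x y : QQ} (h1 : w.ν (x - y) < 1) : w.ν (y - x) < 1 := by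
  rw [← w.ν.map_neg, neg_sub]; exact h1

/-- `γ` has period `D` modulo `q` -/
def Rr (γ c : ℚ) (w : QAbs q) (D : ℕ) : Prop :=
  w.ν (algebraMap ℚ QQ (bb γ c D) - algebraMap ℚ QQ γ) < 1

/-- separation of near vertices -/
theorem exists_period (hg : Good γ c) (hq : q ≠ 2) {m T : ℕ} {u u' : QQ} (hu : u ∈ V γ c m)
    (hu' : u' ∈ V γ c m) (hn : w.ν (u - algebraMap ℚ QQ c) < 1)
    (hn' : w.ν (u' - algebraMap ℚ QQ c) < 1) (hT : (phi γ c)^[T] u = (phi γ c)^[T] u')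
    (hne : u ≠ u') : ∃ D, 1 ≤ D ∧ D ≤ T ∧ Rr γ c w D := by
  classical
  have hex : ∃ D, (phi γ c)^[D] u = (phi γ c)^[D] u' := ⟨T, hT⟩
  set D := Nat.find hex with hD
  have hD1 := Nat.find_spec hex
  have hD0 : D ≠ 0 := by
    intro h0
    rw [← hD, h0] at hD1
    exact hne hD1
  obtain ⟨D', hD'⟩ := Nat.exists_eq_succ_of_ne_zero hD0
  rw [Nat.succ_eq_add_one] at hD'
  refine ⟨D, by omega, Nat.find_min' hex hT, ?_⟩
  set y := (phi γ c)^[D'] u with hy
  set y' := (phi γ c)^[D'] u' with hy'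
  have hyne : y ≠ y' := Nat.find_min hex (by rw [← hD]; omega)
  have hphi : phi γ c y = phi γ c y' := by
    rw [← hD, hD', Function.iterate_succ', Function.comp_apply, Function.comp_apply] at hD1
    exact hD1
  have hsum : y' = 2 * algebraMap ℚ QQ γ - y := by
    unfold phi at hphi
    have h1 : (y - y') * (y + y' - 2 * algebraMap ℚ QQ γ) = 0 := by linear_combination hphi
    rcases mul_eq_zero.1 h1 with h2 | h2
    · exact absurd (sub_eq_zero.1 h2) hyne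
    · linear_combination h2
  have huu' : w.ν (u - u') < 1 := cong_trans w hn (cong_symm w hn')
  have hyy' : w.ν (y - y') < 1 := cong_iter w hg hq (nu_V_le w hg hu) (nu_V_le w hg hu') huu' D'
  have hyγ : w.ν (y - algebraMap ℚ QQ γ) < 1 := by
    have h1 : y - y' = 2 * (y - algebraMap ℚ QQ γ) := by rw [hsum]; ring
    rwa [h1, map_mul, w.two_eq hq, one_mul] at hyy'
  have hyb : w.ν (y - algebraMap ℚ QQ (bb γ c D)) < 1 := by
    rw [hD', bb_succ_eq]
    exact cong_iter w hg hq (nu_V_le w hg hu) (nu_c_le w hg hq) hn D'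
  exact cong_trans w (cong_symm w hyb) hyγ

theorem nu_prod (hg : Good γ c) (m : ℕ) :
    w.ν (algebraMap ℚ QQ (bb γ c (m + 1))) =
      ∏ u ∈ (V_finite (γ := γ) (c := c) m).toFinset, w.ν (u - algebraMap ℚ QQ c) := by
  rw [bb_succ_eq, ← prod_V hg, map_prod]
  refine Finset.prod_congr rfl fun u _ => ?_
  rw [← w.ν.map_neg, neg_sub]

/-- existence of a near vertex -/
theorem exists_near (hg : Good γ c) (m : ℕ)
    (h : w.ν (algebraMap ℚ QQ (bb γ c (m + 1))) ≠ 1) :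
    ∃ u ∈ V γ c m, w.ν (u - algebraMap ℚ QQ c) ≠ 1 := by
  by_contra hcon
  push Not at hcon
  apply h
  rw [nu_prod w hg]
  exact Finset.prod_eq_one fun u hu => hcon u ((Set.Finite.mem_toFinset _).1 hu)

theorem near_bb (hg : Good γ c) (hq : q ≠ 2) {m : ℕ} {u : QQ} (hu : u ∈ V γ c m)
    (h : w.ν (u - algebraMap ℚ QQ c) < 1) : w.ν (algebraMap ℚ QQ (bb γ c (m + 1))) < 1 := by
  classical
  rw [nu_prod w hg, ← Finset.mul_prod_erase _ _ ((Set.Finite.mem_toFinset _).2 hu)]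
  calc w.ν (u - algebraMap ℚ QQ c) * ∏ x ∈ ((V_finite (γ := γ) (c := c) m).toFinset.erase u),
      w.ν (x - algebraMap ℚ QQ c) ≤ w.ν (u - algebraMap ℚ QQ c) * 1 := by
        apply mul_le_mul_of_nonneg_left _ (w.ν.nonneg _)
        apply Finset.prod_le_one
        · intro x _; exact w.ν.nonneg _
        · intro x hx
          exact nu_sub_c_le w hg hq ((Set.Finite.mem_toFinset _).1 (Finset.mem_of_mem_erase hx))
    _ < 1 := by rwa [mul_one]

/-- a near preimage -/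
theorem exists_near_preimage (hg : Good γ c) (hq : q ≠ 2) (j : ℕ) :
    ∀ (n : ℕ) (z x : QQ), z ∈ V γ c n → w.ν x ≤ 1 → w.ν ((phi γ c)^[j] x - z) < 1 →
      ∃ y ∈ V γ c (n + j), (phi γ c)^[j] y = z ∧ w.ν (x - y) < 1 ∧
        w.ν ((phi γ c)^[j] x - z) ≤ w.ν (x - y) := by
  induction j with
  | zero =>
    intro n z x hz _ h
    exact ⟨z, hz, rfl, h, le_rfl⟩
  | succ j ih =>
    intro n z x hz hx h
    -- children of z
    obtain ⟨s, hs, hw⟩ := exists_fibre (γ := γ) (c := c) z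
    set X := (phi γ c)^[j] x with hX
    have hX1 : w.ν X ≤ 1 := nu_iter_le w hg hq hx j
    have hXs : (phi γ c)^[j + 1] x = phi γ c X := by
      rw [Function.iterate_succ', Function.comp_apply]
    rw [hXs] at h ⊢
    set y1 := algebraMap ℚ QQ γ + s with hy1
    set y2 := algebraMap ℚ QQ γ - s with hy2
    have hfac : phi γ c X - z = (X - y1) * (X - y2) := by
      unfold phi
      linear_combination hs
    have hv1 : y1 ∈ V γ c (n + 1) := (mem_V_succ n y1).2 (by rw [(hw y1).2 (Or.inl rfl)]; exact hz)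
    have hv2 : y2 ∈ V γ c (n + 1) := (mem_V_succ n y2).2 (by rw [(hw y2).2 (Or.inr rfl)]; exact hz)
    have hle1 : w.ν (X - y1) ≤ 1 := (w.sub_le _ _).trans (max_le hX1 (nu_V_le w hg hv1))
    have hle2 : w.ν (X - y2) ≤ 1 := (w.sub_le _ _).trans (max_le hX1 (nu_V_le w hg hv2))
    have hprod : w.ν (phi γ c X - z) = w.ν (X - y1) * w.ν (X - y2) := by rw [hfac, map_mul]
    obtain ⟨y, hy, hyz, hy1', hy2'⟩ : ∃ y ∈ V γ c (n + 1), phi γ c y = z ∧ w.ν (X - y) < 1 ∧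
        w.ν (phi γ c X - z) ≤ w.ν (X - y) := by
      by_cases hc : w.ν (X - y1) < 1
      · refine ⟨y1, hv1, (hw y1).2 (Or.inl rfl), hc, ?_⟩
        rw [hprod]
        exact mul_le_of_le_one_right (w.ν.nonneg _) hle2
      · have hc1 : w.ν (X - y1) = 1 := le_antisymm hle1 (not_lt.1 hc)
        refine ⟨y2, hv2, (hw y2).2 (Or.inr rfl), ?_, ?_⟩
        · rw [hprod, hc1, one_mul] at h; exact h
        · rw [hprod, hc1, one_mul]
    obtain ⟨y', hy', hyy', h3, h4⟩ := ih (n + 1) y x hy hx hy1'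
    refine ⟨y', ?_, ?_, h3, hy2'.trans h4⟩
    · have : n + 1 + j = n + (j + 1) := by ring
      rw [← this]; exact hy'
    · rw [Function.iterate_succ', Function.comp_apply, hyy', hyz]

end Pool.Agent.Helper13.JO
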