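import Pool.Agent.Helper13.JO.KillMain

/-!
# Jones' conjecture: from the polynomial to the tree
-/

set_option autoImplicit false

namespace Pool.Agent.Helper13.JO

open Polynomial

/-- the iterates of a polynomial -/
noncomputable def Fn (f : ℤ[X]) (n : ℕ) : ℤ[X] := (f.comp)^[n] X

theorem Fn_zero (f : ℤ[X]) : Fn f 0 = X := rfl

theorem Fn_succ (f : ℤ[X]) (n : ℕ) : Fn f (n + 1) = f.comp (Fn f n) := by
  unfold Fn; rw [Function.iterate_succ', Function.comp_apply]

theorem ev_Fn {R : Type*} [CommRing R] (f : ℤ[X]) (n : ℕ) (x : R) :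
    eval₂ (Int.castRingHom R) x (Fn f n) =
      (fun y : R => eval₂ (Int.castRingHom R) y f)^[n] x := by
  induction n with
  | zero => rw [Fn_zero, eval₂_X]; rfl
  | succ n ih =>
    rw [Fn_succ, eval₂_comp, ih, Function.iterate_succ', Function.comp_apply]

theorem eval_Fn (f : ℤ[X]) (n : ℕ) (x : ℤ) : (Fn f n).eval x = (fun y : ℤ => f.eval y)^[n] x := by
  have h := ev_Fn f n x
  have h1 : Int.castRingHom ℤ = RingHom.id ℤ := RingHom.ext_int _ _
  rw [h1] at h
  exact h

theorem ev_quad {R : Type*} [CommRing R] (f : ℤ[X]) (hm : f.Monic) (hd : f.natDegree = 2)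
    (x : R) : eval₂ (Int.castRingHom R) x f = x ^ 2 + (f.coeff 1 : R) * x + (f.coeff 0 : R) := by
  rw [eval₂_eq_sum_range, hd, Finset.sum_range_succ, Finset.sum_range_succ, Finset.sum_range_one]
  have h2 : f.coeff 2 = 1 := by rw [← hd]; exact hm.coeff_natDegree
  rw [h2]
  simp only [eq_intCast, pow_zero, mul_one, pow_one, Int.cast_one, one_mul]
  ring

/-- the critical point -/
def gam (f : ℤ[X]) : ℚ := -(f.coeff 1 : ℚ) / 2

/-- the critical value -/
def cc (f : ℤ[X]) : ℚ := (f.coeff 0 : ℚ) - (f.coeff 1 : ℚ) ^ 2 / 4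

theorem phi_eq_ev (f : ℤ[X]) (hm : f.Monic) (hd : f.natDegree = 2) (x : QQ) :
    phi (gam f) (cc f) x = eval₂ (Int.castRingHom QQ) x f := by
  rw [ev_quad f hm hd]
  unfold phi gam cc
  simp only [map_div₀, map_neg, map_sub, map_pow, map_intCast, map_ofNat]
  ring

theorem phiQ_eq_ev (f : ℤ[X]) (hm : f.Monic) (hd : f.natDegree = 2) (x : ℚ) :
    phiQ (gam f) (cc f) x = eval₂ (Int.castRingHom ℚ) x f := by
  rw [ev_quad f hm hd]
  unfold phiQ gam cc
  ring

theorem mem_V_iff (f : ℤ[X]) (hm : f.Monic) (hd : f.natDegree = 2) (n : ℕ) (x : QQ) :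
    x ∈ V (gam f) (cc f) n ↔ eval₂ (Int.castRingHom QQ) x (Fn f n) = 0 := by
  rw [mem_V, ev_Fn]
  have : phi (gam f) (cc f) = fun y : QQ => eval₂ (Int.castRingHom QQ) y f :=
    funext fun y => phi_eq_ev f hm hd y
  rw [this]

/-- the iterate as a polynomial over the rationals -/
noncomputable def FQ (f : ℤ[X]) (n : ℕ) : ℚ[X] := (Fn f n).map (Int.castRingHom ℚ)

theorem aeval_FQ (f : ℤ[X]) (n : ℕ) (x : QQ) :
    aeval x (FQ f n) = eval₂ (Int.castRingHom QQ) x (Fn f n) := by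
  unfold FQ
  rw [aeval_def, eval₂_map]
  congr 1

theorem mem_V_iff' (f : ℤ[X]) (hm : f.Monic) (hd : f.natDegree = 2) (n : ℕ) (x : QQ) :
    x ∈ V (gam f) (cc f) n ↔ aeval x (FQ f n) = 0 := by
  rw [mem_V_iff f hm hd, aeval_FQ]

theorem natDegree_Fn (f : ℤ[X]) (hd : f.natDegree = 2) (n : ℕ) : (Fn f n).natDegree = 2 ^ n := by
  unfold Fn
  rw [natDegree_iterate_comp, hd, natDegree_X, mul_one]

theorem monic_Fn (f : ℤ[X]) (hm : f.Monic) (hd : f.natDegree = 2) (n : ℕ) : (Fn f n).Monic := by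
  induction n with
  | zero => exact monic_X
  | succ n ih =>
    rw [Fn_succ]
    apply hm.comp ih
    rw [natDegree_Fn f hd]
    positivity

theorem natDegree_FQ (f : ℤ[X]) (hm : f.Monic) (hd : f.natDegree = 2) (n : ℕ) :
    (FQ f n).natDegree = 2 ^ n := by
  unfold FQ
  rw [(monic_Fn f hm hd n).natDegree_map, natDegree_Fn f hd]

theorem iterate_mem_of_eq {α : Type*} (g : α → α) (x : α) {i j : ℕ} (hij : i < j)
    (h : g^[i] x = g^[j] x) (n : ℕ) : ∃ t, t < j ∧ g^[t] x = g^[n] x := by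
  induction n using Nat.strong_induction_on with
  | _ n ih =>
    by_cases hn : n < j
    · exact ⟨n, hn, rfl⟩
    · obtain ⟨t, ht, hte⟩ := ih (n - j + i) (by omega)
      refine ⟨t, ht, ?_⟩
      rw [hte, Function.iterate_add_apply, h, ← Function.iterate_add_apply]
      congr 2
      omega

theorem injective_of_infinite {α : Type*} (g : α → α) (x : α)
    (h : (Set.range fun n : ℕ => g^[n] x).Infinite) : Function.Injective fun n : ℕ => g^[n] x := by
  classical
  intro i j hij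
  by_contra hne
  wlog hlt : i < j generalizing i j
  · exact this hij.symm (Ne.symm hne) (by omega)
  apply h
  refine ((Finset.range j).image fun t => g^[t] x).finite_toSet.subset ?_
  rintro _ ⟨n, rfl⟩
  obtain ⟨t, ht, hte⟩ := iterate_mem_of_eq g x hlt hij n
  rw [Finset.mem_coe, Finset.mem_image]
  exact ⟨t, Finset.mem_range.2 ht, hte⟩

theorem good_of (f : ℤ[X]) (hm : f.Monic) (hd : f.natDegree = 2)
    (hirr : ∀ n : ℕ, 1 ≤ n → Irreducible (FQ f n))
    (hw : ∀ γ : ℚ, (derivative (f.map (Int.castRingHom ℚ))).eval γ = 0 →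
      (Set.range fun n : ℕ => (fun x : ℚ => (f.map (Int.castRingHom ℚ)).eval x)^[n] γ).Infinite) :
    Good (gam f) (cc f) where
  hγ := ⟨-f.coeff 1, by unfold gam; push_cast; ring⟩
  hc := ⟨f.coeff 0, by unfold gam cc; ring⟩
  trans := by
    intro n x hx y hy
    rcases Nat.eq_zero_or_pos n with rfl | hn
    · rw [mem_V_zero] at hx hy
      exact ⟨AlgEquiv.refl, by rw [hx, hy]; rfl⟩
    · have hx' := (mem_V_iff' f hm hd n x).1 hx
      have hy' := (mem_V_iff' f hm hd n y).1 hy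
      have h1 := minpoly.eq_of_irreducible (hirr n hn) hx'
      have h2 := minpoly.eq_of_irreducible (hirr n hn) hy'
      have h3 : minpoly ℚ y = minpoly ℚ x := h2.symm.trans h1
      obtain ⟨σ, hσ⟩ := (Normal.minpoly_eq_iff_mem_orbit QQ).1 h3
      exact ⟨σ, hσ⟩
  norat := by
    intro n hn r hr
    have h1 := (mem_V_iff' f hm hd n _).1 hr
    rw [aeval_algebraMap_apply, map_eq_zero_iff _ (algebraMap ℚ QQ).injective] at h1
    have h2 : (FQ f n).IsRoot r := by
      rw [IsRoot.def, ← coe_aeval_eq_eval]; exact h1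
    have h3 := degree_eq_one_of_irreducible_of_root (hirr n hn) h2
    have h4 := natDegree_eq_of_degree_eq_some h3
    rw [natDegree_FQ f hm hd] at h4
    have h5 : 2 ^ 1 ≤ 2 ^ n := Nat.pow_le_pow_right (by norm_num) hn
    rw [h4] at h5
    norm_num at h5
  wand := by
    have hev : (fun x : ℚ => (f.map (Int.castRingHom ℚ)).eval x) = phiQ (gam f) (cc f) := by
      funext x
      rw [phiQ_eq_ev f hm hd, eval_map]
    have h1 := hw (gam f) (by
      have h2 : f.map (Int.castRingHom ℚ) =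
          X ^ 2 + C (f.coeff 1 : ℚ) * X + C (f.coeff 0 : ℚ) := by
        have h3 : f.coeff 2 = 1 := by rw [← hd]; exact hm.coeff_natDegree
        ext n
        rw [coeff_map]
        obtain ⟨b1, hb1⟩ : ∃ b1 : ℚ, b1 = (f.coeff 1 : ℚ) := ⟨_, rfl⟩
        obtain ⟨b0, hb0⟩ : ∃ b0 : ℚ, b0 = (f.coeff 0 : ℚ) := ⟨_, rfl⟩
        rw [← hb1, ← hb0]
        rcases n with _ | _ | _ | n
        · simp [hb0]
        · simp [hb1, coeff_X_pow, coeff_C]
        · simp [h3, coeff_X, coeff_C]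
        · have h4 : f.coeff (n + 1 + 1 + 1) = 0 := coeff_eq_zero_of_natDegree_lt (by omega)
          rw [h4]
          simp [coeff_X, coeff_C, coeff_X_pow]
      obtain ⟨b1, hb1⟩ : ∃ b1 : ℚ, b1 = (f.coeff 1 : ℚ) := ⟨_, rfl⟩
      obtain ⟨b0, hb0⟩ : ∃ b0 : ℚ, b0 = (f.coeff 0 : ℚ) := ⟨_, rfl⟩
      rw [← hb1, ← hb0] at h2
      rw [h2]
      have h5 : gam f = - b1 / 2 := by rw [hb1]; rfl
      rw [h5]
      simp
      ring)
    rw [hev] at h1
    exact injective_of_infinite _ _ h1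

end Pool.Agent.Helper13.JO
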