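import Pool.Agent.Helper13.JO.Final

/-!
# Jones' conjecture: the version uniform in the starting point

The upper density of the primes modulo which the `M`-th iterate has a root tends to `0`.
-/

set_option autoImplicit false

namespace Pool.Agent.Helper13.JO

open Polynomial Filter

/-- a later iterate vanishing at a point gives the `M`-th iterate vanishing at a point. -/
theorem later_root (f : ℤ[X]) (M p : ℕ) (h : ∃ n : ℕ, M ≤ n ∧ ∃ r : ℤ,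
    (p : ℤ) ∣ (fun x : ℤ => f.eval x)^[n] r) : ∃ r : ℤ, (p : ℤ) ∣ (Fn f M).eval r := by
  obtain ⟨n, hn, r, hr⟩ := h
  refine ⟨(fun x : ℤ => f.eval x)^[n - M] r, ?_⟩
  rw [eval_Fn, ← Function.iterate_add_apply]
  have : M + (n - M) = n := by omega
  rw [this]
  exact hr

/-- For every `ε > 0` there is an `M` such that the primes `p` for which some integer `r` and some
`n ≥ M`, both allowed to depend on `p`, satisfy `p ∣ f^n(r)` have upper density at most `ε`. -/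
theorem uniform (hDens : DensStmt) (hO : OddPrimesStmt) (f : ℤ[X]) (hm : f.Monic)
    (hd : f.natDegree = 2) (hirr : ∀ n : ℕ, 1 ≤ n → Irreducible (FQ f n))
    (hw : ∀ γ : ℚ, (derivative (f.map (Int.castRingHom ℚ))).eval γ = 0 →
      (Set.range fun n : ℕ => (fun x : ℚ => (f.map (Int.castRingHom ℚ)).eval x)^[n] γ).Infinite)
    (ε : ℝ) (hε : 0 < ε) : ∃ M : ℕ, 1 ≤ M ∧ ∀ᶠ N : ℕ in atTop,
      ({p : ℕ | p ≤ N ∧ p.Prime ∧ ∃ n : ℕ, M ≤ n ∧ ∃ r : ℤ,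
        (p : ℤ) ∣ (fun x : ℤ => f.eval x)^[n] r}.ncard : ℝ) ≤
        ε * (Nat.primeCounting N : ℝ) := by
  have hg := good_of f hm hd hirr hw
  obtain ⟨M, hM1, hM⟩ := exists_small hO f hm hd hirr hg (ε / 24) (by positivity)
  refine ⟨M, hM1, ?_⟩
  have hsep : ((Fn f M).map (Int.castRingHom ℚ)).Separable := (hirr M hM1).separable
  have hD := hDens (Fn f M) (monic_Fn f hm hd M) hsep (isPGroup f hm hd M)
  have hcmp := eventually_compare (ε / 24) 0 (by positivity)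
  filter_upwards [hD, hcmp, eventually_ge_atTop 2] with N h1 h2 hN
  have hsub : {p : ℕ | p ≤ N ∧ p.Prime ∧ ∃ n : ℕ, M ≤ n ∧ ∃ r : ℤ,
        (p : ℤ) ∣ (fun x : ℤ => f.eval x)^[n] r} ⊆
      {p : ℕ | p ≤ N ∧ p.Prime ∧ ∃ r : ℤ, (p : ℤ) ∣ (Fn f M).eval r} := by
    rintro p ⟨hpN, hp, h⟩
    exact ⟨hpN, hp, later_root f M p h⟩
  have hfin : ({p : ℕ | p ≤ N ∧ p.Prime ∧ ∃ r : ℤ, (p : ℤ) ∣ (Fn f M).eval r}).Finite :=
    (Set.finite_Iic N).subset fun p hp => hp.1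
  have h3 : ({p : ℕ | p ≤ N ∧ p.Prime ∧ ∃ n : ℕ, M ≤ n ∧ ∃ r : ℤ,
        (p : ℤ) ∣ (fun x : ℤ => f.eval x)^[n] r}.ncard : ℝ) ≤
      ({p : ℕ | p ≤ N ∧ p.Prime ∧ ∃ r : ℤ, (p : ℤ) ∣ (Fn f M).eval r}.ncard : ℝ) := by
    exact_mod_cast Set.ncard_le_ncard hsub hfin
  have hlogpos : 0 < Real.log (N : ℝ) := Real.log_pos (by exact_mod_cast hN)
  have h8 : ({p : ℕ | p ≤ N ∧ p.Prime ∧ ∃ r : ℤ, (p : ℤ) ∣ (Fn f M).eval r}.ncard : ℝ) ≤
      7 * (ε / 24) * (N / Real.log N) := by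
    refine h1.trans ?_
    apply mul_le_mul_of_nonneg_right _ (by positivity)
    apply mul_le_mul_of_nonneg_left hM (by norm_num)
  have hπ : (0 : ℝ) ≤ (Nat.primeCounting N : ℝ) := Nat.cast_nonneg _
  have h9 : 12 * (ε / 24) * (Nat.primeCounting N : ℝ) ≤ ε * (Nat.primeCounting N : ℝ) := by
    have : 12 * (ε / 24) = ε / 2 := by ring
    rw [this]
    apply mul_le_mul_of_nonneg_right _ hπ
    linarith
  linarith

/-- For every function `h` tending to infinity, the primes `p` for which some integer `r` and some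
`n ≥ h p`, both allowed to depend on `p`, satisfy `p ∣ f^n(r)` have density `0`. -/
theorem moving (hDens : DensStmt) (hO : OddPrimesStmt) (f : ℤ[X]) (hm : f.Monic)
    (hd : f.natDegree = 2) (hirr : ∀ n : ℕ, 1 ≤ n → Irreducible (FQ f n))
    (hw : ∀ γ : ℚ, (derivative (f.map (Int.castRingHom ℚ))).eval γ = 0 →
      (Set.range fun n : ℕ => (fun x : ℚ => (f.map (Int.castRingHom ℚ)).eval x)^[n] γ).Infinite)
    (h : ℕ → ℕ) (hh : Tendsto h atTop atTop) :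
    Tendsto (fun N : ℕ =>
      (({p : ℕ | p ≤ N ∧ p.Prime ∧ ∃ n : ℕ, h p ≤ n ∧ ∃ r : ℤ,
        (p : ℤ) ∣ (fun x : ℤ => f.eval x)^[n] r}.ncard : ℝ) /
        (Nat.primeCounting N : ℝ))) atTop (nhds 0) := by
  rw [Metric.tendsto_nhds]
  intro ε hε
  obtain ⟨M, -, hM⟩ := uniform hDens hO f hm hd hirr hw (ε / 4) (by positivity)
  obtain ⟨P, hP⟩ := (hh.eventually_ge_atTop M).exists_forall_of_atTop
  have hcmp := eventually_compare (ε / 24) (P : ℝ) (by positivity)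
  filter_upwards [hM, hcmp, eventually_ge_atTop 2] with N h1 h2 hN
  have hsub : {p : ℕ | p ≤ N ∧ p.Prime ∧ ∃ n : ℕ, h p ≤ n ∧ ∃ r : ℤ,
        (p : ℤ) ∣ (fun x : ℤ => f.eval x)^[n] r} ⊆
      {p : ℕ | p ≤ N ∧ p.Prime ∧ ∃ n : ℕ, M ≤ n ∧ ∃ r : ℤ,
        (p : ℤ) ∣ (fun x : ℤ => f.eval x)^[n] r} ∪ Set.Iio P := by
    rintro p ⟨hpN, hp, n, hn, r, hr⟩
    rcases Nat.lt_or_ge p P with hlt | hge
    · exact Or.inr hlt
    · exact Or.inl ⟨hpN, hp, n, (hP p hge).trans hn, r, hr⟩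
  have hfin : ({p : ℕ | p ≤ N ∧ p.Prime ∧ ∃ n : ℕ, M ≤ n ∧ ∃ r : ℤ,
        (p : ℤ) ∣ (fun x : ℤ => f.eval x)^[n] r} ∪ Set.Iio P).Finite :=
    ((Set.finite_Iic N).subset fun p hp => hp.1).union (Set.finite_Iio P)
  have hcardP : (Set.Iio P).ncard = P := by
    rw [Set.ncard_eq_toFinset_card']
    simp
  have h3 : ({p : ℕ | p ≤ N ∧ p.Prime ∧ ∃ n : ℕ, h p ≤ n ∧ ∃ r : ℤ,
        (p : ℤ) ∣ (fun x : ℤ => f.eval x)^[n] r}.ncard : ℝ) ≤
      ({p : ℕ | p ≤ N ∧ p.Prime ∧ ∃ n : ℕ, M ≤ n ∧ ∃ r : ℤ,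
        (p : ℤ) ∣ (fun x : ℤ => f.eval x)^[n] r}.ncard : ℝ) + P := by
    have h4 := Set.ncard_le_ncard hsub hfin
    have h5 := Set.ncard_union_le {p : ℕ | p ≤ N ∧ p.Prime ∧ ∃ n : ℕ, M ≤ n ∧ ∃ r : ℤ,
        (p : ℤ) ∣ (fun x : ℤ => f.eval x)^[n] r} (Set.Iio P)
    rw [hcardP] at h5
    exact_mod_cast h4.trans h5
  have hπ : 0 < (Nat.primeCounting N : ℝ) := by
    have : 0 < Nat.primeCounting N := by
      have h6 := Nat.monotone_primeCounting hN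
      have h7 : Nat.primeCounting 2 = 1 := by decide
      omega
    exact_mod_cast this
  have hlogpos : 0 < Real.log (N : ℝ) := Real.log_pos (by exact_mod_cast hN)
  rw [Real.dist_eq, sub_zero, abs_of_nonneg (by positivity), div_lt_iff₀ hπ]
  have h8 : 0 ≤ 7 * (ε / 24) * ((N : ℝ) / Real.log N) := by positivity
  nlinarith

end Pool.Agent.Helper13.JO
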