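import Pool.Agent.Helper13.JO.Kummer

/-!
# Jones' conjecture: valuations
-/

set_option autoImplicit false

namespace Pool.Agent.Helper13.JO

open Polynomial

/-- a `q`-adic absolute value on the algebraic closure -/
structure QAbs (q : ℕ) [Fact q.Prime] where
  ν : AbsoluteValue QQ ℝ
  na : ∀ x y, ν (x + y) ≤ max (ν x) (ν y)
  ext : ∀ r : ℚ, ν (algebraMap ℚ QQ r) = ‖(r : ℚ_[q])‖

theorem exists_qabs (q : ℕ) [Fact q.Prime] : Nonempty (QAbs q) := by
  let e : QQ →ₐ[ℚ] PadicAlgCl q := IsAlgClosed.lift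
  refine ⟨⟨⟨⟨fun x => ‖e x‖, fun x y => by rw [map_mul, norm_mul]⟩,
    fun x => norm_nonneg _, fun x => by simp, fun x y => by
      simpa using norm_add_le (e x) (e y)⟩, ?_, ?_⟩⟩
  · intro x y
    change ‖e (x + y)‖ ≤ max ‖e x‖ ‖e y‖
    rw [map_add]
    exact PadicAlgCl.isNonarchimedean q _ _
  · intro r
    change ‖e (algebraMap ℚ QQ r)‖ = _
    rw [AlgHom.commutes]
    have h1 : algebraMap ℚ (PadicAlgCl q) r = ((r : ℚ_[q]) : PadicAlgCl q) := by
      rw [eq_ratCast, map_ratCast]
    rw [h1]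
    exact PadicAlgCl.norm_extends q _

namespace QAbs

variable {q : ℕ} [Fact q.Prime] (w : QAbs q)

theorem sub_le (x y : QQ) : w.ν (x - y) ≤ max (w.ν x) (w.ν y) := by
  rw [sub_eq_add_neg, ← w.ν.map_neg y]
  exact w.na _ _

theorem add_eq {x y : QQ} (h : w.ν y < w.ν x) : w.ν (x + y) = w.ν x := by
  apply le_antisymm
  · exact (w.na x y).trans (max_le le_rfl h.le)
  · have h1 := w.sub_le (x + y) y
    rw [add_sub_cancel_right] at h1
    rcases le_max_iff.1 h1 with h2 | h2
    · exact h2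
    · exact absurd h2 (not_le.2 h)

theorem sub_eq {x y : QQ} (h : w.ν y < w.ν x) : w.ν (x - y) = w.ν x := by
  rw [sub_eq_add_neg]
  apply w.add_eq
  rwa [w.ν.map_neg]

theorem int_le (n : ℤ) : w.ν (n : QQ) ≤ 1 := by
  have h1 : (n : QQ) = algebraMap ℚ QQ (n : ℚ) := by simp
  rw [h1, w.ext]
  have h2 : (((n : ℚ) : ℚ_[q])) = ((n : ℤ) : ℚ_[q]) := by simp
  rw [h2]
  exact Padic.norm_int_le_one n

theorem two_eq (hq : q ≠ 2) : w.ν 2 = 1 := by
  have h1 : (2 : QQ) = algebraMap ℚ QQ 2 := by simp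
  rw [h1, w.ext]
  have h2 : (((2 : ℚ)) : ℚ_[q]) = ((2 : ℕ) : ℚ_[q]) := by simp
  rw [h2]
  rw [Padic.norm_natCast_eq_one_iff]
  exact (Nat.coprime_primes (Fact.out : q.Prime) Nat.prime_two).2 hq

theorem sum_le {ι : Type*} (s : Finset ι) (f : ι → QQ) (b : ℝ) (hb : 0 ≤ b)
    (h : ∀ i ∈ s, w.ν (f i) ≤ b) : w.ν (∑ i ∈ s, f i) ≤ b := by
  classical
  induction s using Finset.induction_on with
  | empty => simpa using hb
  | insert a s ha ih =>
    rw [Finset.sum_insert ha]
    refine (w.na _ _).trans (max_le (h a (Finset.mem_insert_self _ _)) (ih fun i hi => ?_))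
    exact h i (Finset.mem_insert_of_mem hi)

theorem integral_le {x : QQ} (hx : IsIntegral ℤ x) : w.ν x ≤ 1 := by
  obtain ⟨P, hP, hPx⟩ := hx
  by_contra hcon
  push Not at hcon
  have h0 : P.natDegree ≠ 0 := by
    intro h0
    have : P = 1 := by
      rw [eq_C_of_natDegree_eq_zero h0]
      have h1 : P.coeff 0 = 1 := by rw [← h0]; exact hP.coeff_natDegree
      rw [h1, map_one]
    rw [this] at hPx
    simp at hPx
  have h1 : x ^ P.natDegree = - ∑ i ∈ Finset.range P.natDegree, (P.coeff i : QQ) * x ^ i := by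
    rw [eval₂_eq_sum_range, Finset.sum_range_succ, hP.coeff_natDegree] at hPx
    simp only [map_one, one_mul, eq_intCast] at hPx
    exact eq_neg_of_add_eq_zero_right hPx
  have h2 : w.ν (x ^ P.natDegree) ≤ w.ν x ^ (P.natDegree - 1) := by
    rw [h1, w.ν.map_neg]
    apply w.sum_le _ _ _ (by positivity)
    intro i hi
    rw [Finset.mem_range] at hi
    rw [map_mul, map_pow]
    calc w.ν (P.coeff i : QQ) * w.ν x ^ i ≤ 1 * w.ν x ^ i :=
          mul_le_mul_of_nonneg_right (w.int_le _) (by positivity)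
      _ = w.ν x ^ i := one_mul _
      _ ≤ w.ν x ^ (P.natDegree - 1) := pow_le_pow_right₀ hcon.le (by omega)
  rw [map_pow] at h2
  exact absurd h2 (not_le.2 (pow_lt_pow_right₀ hcon (by omega)))

/-- the quadratic step -/
theorem quad_step (h2 : w.ν 2 = 1) (K : IntermediateField ℚ QQ) (s : QQ) (_hsK : s ∉ K)
    (hs2 : s ^ 2 ∈ K) (p r : QQ) (hp : p ∈ K) (hr : r ∈ K) (hx : p + r * s ≠ 0) :
    ∃ y ∈ K, y ≠ 0 ∧ (w.ν (p + r * s) = w.ν y ∨ w.ν (p + r * s) = w.ν y * w.ν s) := by
  have hpos : 0 < w.ν (p + r * s) := w.ν.pos hx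
  by_cases hcase : ∀ a ∈ K, ∀ b ∈ K, w.ν (a + b * s) = w.ν (a - b * s)
  · have h3 := hcase p hp r hr
    have h4 : w.ν p ≤ w.ν (p + r * s) := by
      have : w.ν (2 * p) ≤ w.ν (p + r * s) := by
        have h5 : 2 * p = (p + r * s) + (p - r * s) := by ring
        rw [h5]
        exact (w.na _ _).trans (max_le le_rfl h3.symm.le)
      rwa [map_mul, h2, one_mul] at this
    have h5 : w.ν (r * s) ≤ w.ν (p + r * s) := by
      have : w.ν (2 * (r * s)) ≤ w.ν (p + r * s) := by
        have h5 : 2 * (r * s) = (p + r * s) - (p - r * s) := by ring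
        rw [h5]
        exact (w.sub_le _ _).trans (max_le le_rfl h3.symm.le)
      rwa [map_mul, h2, one_mul] at this
    rcases le_max_iff.1 (w.na p (r * s)) with h6 | h6
    · have h7 : w.ν (p + r * s) = w.ν p := le_antisymm h6 h4
      refine ⟨p, hp, ?_, Or.inl h7⟩
      rintro rfl
      rw [h7] at hpos
      simp at hpos
    · have h7 : w.ν (p + r * s) = w.ν r * w.ν s := by
        rw [← map_mul]; exact le_antisymm h6 h5
      refine ⟨r, hr, ?_, Or.inr h7⟩
      rintro rfl
      rw [h7] at hpos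
      simp at hpos
  · push Not at hcase
    obtain ⟨a, ha, b, hb, hab⟩ := hcase
    -- choose the sign of b
    obtain ⟨b', hb', hlt⟩ : ∃ b' ∈ K, w.ν (a - b' * s) < w.ν (a + b' * s) := by
      rcases lt_or_gt_of_ne hab with h | h
      · refine ⟨-b, neg_mem hb, ?_⟩
        have h3 : a - -b * s = a + b * s := by ring
        have h4 : a + -b * s = a - b * s := by ring
        rw [h3, h4]; exact h
      · exact ⟨b, hb, h⟩
    have hwpos : 0 < w.ν (a + b' * s) := lt_of_le_of_lt (w.ν.nonneg _) hlt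
    have h2a : w.ν (2 * a) = w.ν (a + b' * s) := by
      have h3 : 2 * a = (a + b' * s) + (a - b' * s) := by ring
      rw [h3]
      exact w.add_eq hlt
    have ha0 : a ≠ 0 := by
      rintro rfl
      rw [mul_zero, map_zero] at h2a
      rw [← h2a] at hwpos
      exact lt_irrefl _ hwpos
    set t := (a + b' * s) / (2 * a) with ht
    set t' := (a - b' * s) / (2 * a) with ht'
    have hνt : w.ν t = 1 := by
      rw [ht, map_div₀, h2a, div_self hwpos.ne']
    have hνt' : w.ν t' < 1 := by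
      rw [ht', map_div₀, h2a, div_lt_one hwpos]
      exact hlt
    have hpow : ∀ n : ℕ, ∃ P ∈ K, ∃ R ∈ K, (p + r * s) * t ^ n = P + R * s ∧
        (p - r * s) * t' ^ n = P - R * s := by
      intro n
      induction n with
      | zero => exact ⟨p, hp, r, hr, by ring, by ring⟩
      | succ n ih =>
        obtain ⟨P, hP, R, hR, h3, h4⟩ := ih
        refine ⟨P / 2 + R * b' * s ^ 2 / (2 * a), ?_, P * b' / (2 * a) + R / 2, ?_, ?_, ?_⟩
        · have h2K : (2 : QQ) ∈ K := by
            have : (2 : QQ) = algebraMap ℚ QQ 2 := by simp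
            rw [this]; exact K.algebraMap_mem _
          exact add_mem (div_mem hP h2K)
            (div_mem (mul_mem (mul_mem hR hb') hs2) (mul_mem h2K ha))
        · have h2K : (2 : QQ) ∈ K := by
            have : (2 : QQ) = algebraMap ℚ QQ 2 := by simp
            rw [this]; exact K.algebraMap_mem _
          exact add_mem (div_mem (mul_mem hP hb') (mul_mem h2K ha)) (div_mem hR h2K)
        · rw [pow_succ, ← mul_assoc, h3, ht]
          field_simp
          ring
        · rw [pow_succ, ← mul_assoc, h4, ht']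
          field_simp
          ring
    -- choose n
    obtain ⟨n, hn⟩ : ∃ n : ℕ, w.ν (p - r * s) * w.ν t' ^ n < w.ν (p + r * s) := by
      have h3 : Filter.Tendsto (fun n : ℕ => w.ν (p - r * s) * w.ν t' ^ n) Filter.atTop
          (nhds (w.ν (p - r * s) * 0)) :=
        (tendsto_pow_atTop_nhds_zero_of_lt_one (w.ν.nonneg _) hνt').const_mul _
      rw [mul_zero] at h3
      exact (h3.eventually (gt_mem_nhds hpos)).exists
    obtain ⟨P, hP, R, hR, h3, h4⟩ := hpow n
    have h5 : w.ν (2 * P) = w.ν (p + r * s) := by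
      have h6 : 2 * P = (p + r * s) * t ^ n + (p - r * s) * t' ^ n := by
        rw [h3, h4]; ring
      have h7 : w.ν ((p + r * s) * t ^ n) = w.ν (p + r * s) := by
        rw [map_mul, map_pow, hνt, one_pow, mul_one]
      rw [h6, w.add_eq, h7]
      rw [h7, map_mul, map_pow]
      exact hn
    rw [map_mul, h2, one_mul] at h5
    refine ⟨P, hP, ?_, Or.inl h5.symm⟩
    rintro rfl
    rw [map_zero] at h5
    rw [← h5] at hpos
    exact lt_irrefl _ hpos

end QAbs

/-- the quadratic extension `K(s)` -/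
def quadField (K : IntermediateField ℚ QQ) (s : QQ) (hsK : s ∉ K) (hs2 : s ^ 2 ∈ K) :
    IntermediateField ℚ QQ where
  carrier := {x | ∃ p ∈ K, ∃ r ∈ K, x = p + r * s}
  mul_mem' := by
    rintro _ _ ⟨p, hp, r, hr, rfl⟩ ⟨p', hp', r', hr', rfl⟩
    exact ⟨p * p' + r * r' * s ^ 2, add_mem (mul_mem hp hp') (mul_mem (mul_mem hr hr') hs2),
      p * r' + r * p', add_mem (mul_mem hp hr') (mul_mem hr hp'), by ring⟩
  add_mem' := by
    rintro _ _ ⟨p, hp, r, hr, rfl⟩ ⟨p', hp', r', hr', rfl⟩
    exact ⟨p + p', add_mem hp hp', r + r', add_mem hr hr', by ring⟩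
  algebraMap_mem' := fun a => ⟨algebraMap ℚ QQ a, K.algebraMap_mem a, 0, K.zero_mem, by ring⟩
  inv_mem' := by
    rintro _ ⟨p, hp, r, hr, rfl⟩
    by_cases h0 : p ^ 2 - r ^ 2 * s ^ 2 = 0
    · -- then p = r = 0
      have hr0 : r = 0 := by
        by_contra hr0
        have h1 : (p - r * s) * (p + r * s) = 0 := by linear_combination h0
        rcases mul_eq_zero.1 h1 with h2 | h2
        · apply hsK
          have : s = p / r := by field_simp; linear_combination -h2
          rw [this]; exact div_mem hp hr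
        · apply hsK
          have : s = -p / r := by field_simp; linear_combination h2
          rw [this]; exact div_mem (neg_mem hp) hr
      subst hr0
      have hp0 : p = 0 := by simpa using h0
      subst hp0
      exact ⟨0, K.zero_mem, 0, K.zero_mem, by simp⟩
    · have hm : p ^ 2 - r ^ 2 * s ^ 2 ∈ K :=
        sub_mem (pow_mem hp 2) (mul_mem (pow_mem hr 2) hs2)
      refine ⟨p / (p ^ 2 - r ^ 2 * s ^ 2), div_mem hp hm, -r / (p ^ 2 - r ^ 2 * s ^ 2),
        div_mem (neg_mem hr) hm, ?_⟩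
      have h1 : p + r * s ≠ 0 := by
        intro h1
        apply h0
        linear_combination (p - r * s) * h1
      field_simp
      ring

theorem mem_quadField (K : IntermediateField ℚ QQ) (s : QQ) (hsK : s ∉ K) (hs2 : s ^ 2 ∈ K)
    (x : QQ) : x ∈ quadField K s hsK hs2 ↔ ∃ p ∈ K, ∃ r ∈ K, x = p + r * s := Iff.rfl

theorem QAbs.tower {q : ℕ} [Fact q.Prime] (w : QAbs q) (h2 : w.ν 2 = 1)
    (K : IntermediateField ℚ QQ) (A : Finset QQ) (hA : ∀ s ∈ A, s ^ 2 ∈ K) :
    ∀ x ∈ K ⊔ IntermediateField.adjoin ℚ (A : Set QQ), x ≠ 0 →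
      ∃ y ∈ K, y ≠ 0 ∧ ∃ B ⊆ A, w.ν x = w.ν y * ∏ s ∈ B, w.ν s := by
  classical
  induction A using Finset.induction_on with
  | empty =>
    intro x hx hx0
    have h1 : K ⊔ IntermediateField.adjoin ℚ ((∅ : Finset QQ) : Set QQ) = K := by
      rw [Finset.coe_empty, IntermediateField.adjoin_empty, sup_bot_eq]
    rw [h1] at hx
    exact ⟨x, hx, hx0, ∅, Finset.Subset.refl _, by simp⟩
  | insert s A hsA ih =>
    intro x hx hx0
    have ih' := ih fun t ht => hA t (Finset.mem_insert_of_mem ht)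
    set F := K ⊔ IntermediateField.adjoin ℚ (A : Set QQ) with hF
    have hKF : K ≤ F := le_sup_left
    have hs2 : s ^ 2 ∈ F := hKF (hA s (Finset.mem_insert_self _ _))
    by_cases hsF : s ∈ F
    · have h1 : K ⊔ IntermediateField.adjoin ℚ ((insert s A : Finset QQ) : Set QQ) ≤ F := by
        apply sup_le hKF
        rw [IntermediateField.adjoin_le_iff, Finset.coe_insert]
        rintro y (rfl | hy)
        · exact hsF
        · exact (le_sup_right : _ ≤ F) (IntermediateField.subset_adjoin ℚ _ hy)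
      obtain ⟨y, hy, hy0, B, hB, hxy⟩ := ih' x (h1 hx) hx0
      exact ⟨y, hy, hy0, B, hB.trans (Finset.subset_insert _ _), hxy⟩
    · have h1 : K ⊔ IntermediateField.adjoin ℚ ((insert s A : Finset QQ) : Set QQ) ≤
          quadField F s hsF hs2 := by
        apply sup_le
        · intro y hy
          exact ⟨y, hKF hy, 0, F.zero_mem, by ring⟩
        · rw [IntermediateField.adjoin_le_iff, Finset.coe_insert]
          rintro y (rfl | hy)
          · exact ⟨0, F.zero_mem, 1, F.one_mem, by ring⟩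
          · exact ⟨y, (le_sup_right : _ ≤ F) (IntermediateField.subset_adjoin ℚ _ hy), 0,
              F.zero_mem, by ring⟩
      obtain ⟨p, hp, r, hr, rfl⟩ := h1 hx
      obtain ⟨y, hy, hy0, hxy⟩ := w.quad_step h2 F s hsF hs2 p r hp hr hx0
      obtain ⟨z, hz, hz0, B, hB, hyz⟩ := ih' y hy hy0
      rcases hxy with h | h
      · exact ⟨z, hz, hz0, B, hB.trans (Finset.subset_insert _ _), by rw [h, hyz]⟩
      · refine ⟨z, hz, hz0, insert s B, Finset.insert_subset_insert _ hB, ?_⟩
        rw [h, hyz, Finset.prod_insert fun hsB => hsA (hB hsB)]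
        ring

end Pool.Agent.Helper13.JO
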